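import Mathlib
import Pool.Agent.BSGEnergy.Basic

/-!
# Weights of the cosets of a subgroup relative to an extremal set
-/

namespace Pool.Agent.BSGX2

open Finset Pool.Agent.BSGEnergy

set_option linter.unusedSectionVars false

variable {G Γ : Type*} [AddCommGroup G] [DecidableEq G] [AddCommGroup Γ] [DecidableEq Γ]

/-- the fibre of `X` over `x` -/
def fib (π : G →+ Γ) (X : Finset G) (x : Γ) : Finset G := X.filter (fun g => π g = x)

/-- the relative weight of the fibre of `X` over `x` -/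
noncomputable def wt (π : G →+ Γ) (B X : Finset G) (x : Γ) : ℝ :=
  ((fib π X x).card : ℝ) / B.card

lemma fib_subset (π : G →+ Γ) (X : Finset G) (x : Γ) : fib π X x ⊆ X := Finset.filter_subset _ _

lemma wt_nonneg (π : G →+ Γ) (B X : Finset G) (x : Γ) : 0 ≤ wt π B X x := by
  unfold wt; positivity

lemma wt_le (π : G →+ Γ) (B : Finset G) {X : Finset G} (hX : X ⊆ B) (x : Γ) :
    wt π B X x ≤ wt π B B x := by
  unfold wt
  apply div_le_div_of_nonneg_right _ (Nat.cast_nonneg _)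
  exact_mod_cast Finset.card_le_card (Finset.filter_subset_filter _ hX)

lemma wt_le_one (π : G →+ Γ) (B : Finset G) {X : Finset G} (hX : X ⊆ B) (x : Γ) :
    wt π B X x ≤ 1 := by
  unfold wt
  apply div_le_one_of_le₀ _ (Nat.cast_nonneg _)
  exact_mod_cast Finset.card_le_card ((fib_subset π X x).trans hX)

lemma sum_wt [Fintype Γ] (π : G →+ Γ) (B X : Finset G) :
    ∑ x, wt π B X x = (X.card : ℝ) / B.card := by
  unfold wt
  rw [← Finset.sum_div]
  congr 1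
  have h := Finset.card_eq_sum_card_fiberwise (f := fun g => π g) (s := X) (t := Finset.univ)
    (fun x _ => by simp)
  rw [h]
  push_cast
  rfl

/-- The extremality property in terms of real powers. -/
lemma energy_le_rpow {B : Finset G} (hB : B.Nonempty) (hext : Extremal B) {X : Finset G}
    (hX : X ⊆ B) :
    (energy X : ℝ) ≤ energy B * ((X.card : ℝ) / B.card) ^ (299 / 100 : ℝ) := by
  have hn : (0:ℝ) < B.card := by exact_mod_cast hB.card_pos
  have hEB : (0:ℝ) ≤ energy B := Nat.cast_nonneg _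
  have h := hext X hX
  have h' : (energy X : ℝ) ^ 100 * (B.card : ℝ) ^ 299 ≤ (energy B : ℝ) ^ 100 * (X.card : ℝ) ^ 299 := by
    exact_mod_cast h
  apply le_of_pow_le_pow_left₀ (show 100 ≠ 0 by norm_num) (by positivity)
  rw [mul_pow, ← Real.rpow_natCast (((X.card : ℝ) / B.card) ^ (299 / 100 : ℝ)),
    ← Real.rpow_mul (by positivity)]
  have e : (299 / 100 : ℝ) * ((100 : ℕ) : ℝ) = ((299 : ℕ) : ℝ) := by norm_num
  rw [e, Real.rpow_natCast, div_pow, ← mul_div_assoc, le_div_iff₀ (by positivity)]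
  exact h'

/-- `quad` as a sum over fibres -/
lemma quad_fib [Fintype Γ] (π : G →+ Γ) (X₁ X₂ X₃ X₄ : Finset G) :
    quad X₁ X₂ X₃ X₄ = ∑ x₁, ∑ x₂, ∑ x₃,
      quad (fib π X₁ x₁) (fib π X₂ x₂) (fib π X₃ x₃) (fib π X₄ (x₁ + x₂ - x₃)) := by
  have key : ∀ (X : Finset G) (F : G → ℕ), ∑ g ∈ X, F g = ∑ x : Γ, ∑ g ∈ fib π X x, F g := by
    intro X F
    exact (Finset.sum_fiberwise X (fun g => π g) F).symm
  unfold quad
  rw [key X₁]
  apply Finset.sum_congr rfl; intro x₁ _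
  have s1 : ∀ g₁ ∈ fib π X₁ x₁, (∑ g₂ ∈ X₂, ∑ g₃ ∈ X₃, ∑ g₄ ∈ X₄, if g₁ + g₂ = g₃ + g₄ then 1 else 0)
      = ∑ x₂ : Γ, ∑ x₃ : Γ, ∑ g₂ ∈ fib π X₂ x₂, ∑ g₃ ∈ fib π X₃ x₃,
        ∑ g₄ ∈ fib π X₄ (x₁ + x₂ - x₃), if g₁ + g₂ = g₃ + g₄ then 1 else 0 := by
    intro g₁ hg₁
    rw [key X₂]
    apply Finset.sum_congr rfl; intro x₂ _
    conv_rhs => rw [Finset.sum_comm]
    apply Finset.sum_congr rfl; intro g₂ hg₂
    rw [key X₃]
    apply Finset.sum_congr rfl; intro x₃ _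
    apply Finset.sum_congr rfl; intro g₃ hg₃
    unfold fib at hg₁ hg₂ hg₃ ⊢
    rw [Finset.mem_filter] at hg₁ hg₂ hg₃
    rw [Finset.sum_filter]
    apply Finset.sum_congr rfl; intro g₄ _
    by_cases h : g₁ + g₂ = g₃ + g₄
    · have : π g₄ = x₁ + x₂ - x₃ := by
        have h1 := congrArg π h
        rw [map_add, map_add, hg₁.2, hg₂.2, hg₃.2] at h1
        rw [h1]; abel
      rw [if_pos h, if_pos this]
    · rw [if_neg h]; simp
  rw [Finset.sum_congr rfl s1, Finset.sum_comm]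
  apply Finset.sum_congr rfl; intro x₂ _
  rw [Finset.sum_comm]

lemma quad_le_prod {B : Finset G} (hB : B.Nonempty) (hext : Extremal B) {X₁ X₂ X₃ X₄ : Finset G}
    (h1 : X₁ ⊆ B) (h2 : X₂ ⊆ B) (h3 : X₃ ⊆ B) (h4 : X₄ ⊆ B) :
    (quad X₁ X₂ X₃ X₄ : ℝ) ≤ energy B *
      (((X₁.card : ℝ) / B.card) ^ (299 / 400 : ℝ) * ((X₂.card : ℝ) / B.card) ^ (299 / 400 : ℝ) *
      (((X₃.card : ℝ) / B.card) ^ (299 / 400 : ℝ) * ((X₄.card : ℝ) / B.card) ^ (299 / 400 : ℝ))) := by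
  have hEB : (0:ℝ) ≤ energy B := Nat.cast_nonneg _
  have hq : (quad X₁ X₂ X₃ X₄ : ℝ) ^ 4 ≤
      energy X₁ * energy X₂ * (energy X₃ * energy X₄) := by
    exact_mod_cast quad_pow_le X₁ X₂ X₃ X₄
  have e : ∀ X : Finset G, (((X.card : ℝ) / B.card) ^ (299 / 400 : ℝ)) ^ 4 =
      ((X.card : ℝ) / B.card) ^ (299 / 100 : ℝ) := by
    intro X
    rw [← Real.rpow_natCast, ← Real.rpow_mul (by positivity)]
    norm_num
  apply le_of_pow_le_pow_left₀ (show 4 ≠ 0 by norm_num) (by positivity)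
  refine hq.trans ?_
  simp only [mul_pow, e]
  have a1 := energy_le_rpow hB hext h1
  have a2 := energy_le_rpow hB hext h2
  have a3 := energy_le_rpow hB hext h3
  have a4 := energy_le_rpow hB hext h4
  calc (energy X₁ : ℝ) * energy X₂ * (energy X₃ * energy X₄)
      ≤ (energy B * ((X₁.card : ℝ) / B.card) ^ (299 / 100 : ℝ)) *
        (energy B * ((X₂.card : ℝ) / B.card) ^ (299 / 100 : ℝ)) *
        ((energy B * ((X₃.card : ℝ) / B.card) ^ (299 / 100 : ℝ)) *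
        (energy B * ((X₄.card : ℝ) / B.card) ^ (299 / 100 : ℝ))) := by
        gcongr
    _ = _ := by ring

/-- The quotient inequality. -/
lemma quad_le_wt {B : Finset G} (hB : B.Nonempty) (hext : Extremal B) [Fintype Γ] (π : G →+ Γ)
    {X₁ X₂ X₃ X₄ : Finset G}
    (h1 : X₁ ⊆ B) (h2 : X₂ ⊆ B) (h3 : X₃ ⊆ B) (h4 : X₄ ⊆ B) :
    (quad X₁ X₂ X₃ X₄ : ℝ) ≤ energy B * ∑ x₁, ∑ x₂, ∑ x₃,
      (wt π B X₁ x₁ ^ (299 / 400 : ℝ) * wt π B X₂ x₂ ^ (299 / 400 : ℝ) *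
      (wt π B X₃ x₃ ^ (299 / 400 : ℝ) * wt π B X₄ (x₁ + x₂ - x₃) ^ (299 / 400 : ℝ))) := by
  rw [quad_fib π]
  push_cast
  rw [Finset.mul_sum]
  apply Finset.sum_le_sum; intro x₁ _
  rw [Finset.mul_sum]
  apply Finset.sum_le_sum; intro x₂ _
  rw [Finset.mul_sum]
  apply Finset.sum_le_sum; intro x₃ _
  exact quad_le_prod hB hext ((fib_subset _ _ _).trans h1) ((fib_subset _ _ _).trans h2)
    ((fib_subset _ _ _).trans h3) ((fib_subset _ _ _).trans h4)

end Pool.Agent.BSGX2
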