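import Mathlib
import Pool.Agent.BSGEnergy.Large

/-!
# A Balog–Szemerédi–Gowers theorem preserving the normalised energy, for all `K` up to an
astronomical constant, and with quasi-polynomial sumset bound for all `K`
-/

namespace Pool.Agent.BSGX2.Core

open Finset Pool.Agent.BSGEnergy

variable {G : Type*} [AddCommGroup G] [DecidableEq G]

lemma pow_bound_one {k : ℝ} (hk : 1000 / 983 ≤ k) (hk2 : k ≤ 12 / 10) :
    1 ≤ (12458 / 10000 - k) * k ^ 99 := by
  have hk0 : 0 ≤ k := by linarith
  rcases le_or_gt k (103 / 100) with h | h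
  · calc (1:ℝ) ≤ (12458 / 10000 - 103 / 100) * (1000 / 983) ^ 99 := by norm_num
      _ ≤ _ := mul_le_mul (by linarith) (pow_le_pow_left₀ (by norm_num) hk 99) (by positivity)
        (by linarith)
  · rcases le_or_gt k (11 / 10) with h' | h'
    · calc (1:ℝ) ≤ (12458 / 10000 - 11 / 10) * (103 / 100) ^ 99 := by norm_num
        _ ≤ _ := mul_le_mul (by linarith) (pow_le_pow_left₀ (by norm_num) h.le 99) (by positivity)
          (by linarith)
    · calc (1:ℝ) ≤ (12458 / 10000 - 12 / 10) * (11 / 10) ^ 99 := by norm_num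
        _ ≤ _ := mul_le_mul (by linarith) (pow_le_pow_left₀ (by norm_num) h'.le 99) (by positivity)
          (by linarith)

open Pointwise in
lemma card_add_self_le_sq (B : Finset G) {C : ℝ} (h : (B.card : ℝ) ≤ C) :
    ((B + B).card : ℝ) ≤ C * B.card := by
  have h1 : (B + B).card ≤ B.card * B.card := Finset.card_add_le
  have h2 : ((B + B).card : ℝ) ≤ B.card * B.card := by exact_mod_cast h1
  exact h2.trans (mul_le_mul_of_nonneg_right h (by positivity))

open Pointwise in
/-- the bound from `two_step` -/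
lemma two_step_bound {B : Finset G} (hB : B.Nonempty) (hext : Extremal B) {k c : ℝ}
    (hkd : k = (B.card : ℝ) ^ 3 / energy B) (hk1 : 1 ≤ k)
    (hc : c ≤ 299 / 400 * (1 - 1 / (B.card : ℝ))) (hmain : 1 ≤ (2 * c - k) * k ^ 99) :
    ((B + B).card : ℝ) ≤ k ^ 100 * B.card := by
  have hn : (0:ℝ) < B.card := by exact_mod_cast hB.card_pos
  have hE : (0:ℝ) < energy B := by exact_mod_cast energy_pos hB
  have hk0 : 0 < k := by linarith
  have hEk' : (energy B : ℝ) / B.card = (B.card : ℝ) ^ 2 / k := by
    rw [hkd]; field_simp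
  have h1 := two_step hB (ρ := c / k) (by
    intro z hz
    refine le_trans ?_ (deg_lower hext hz)
    rw [hEk']
    calc c / k * (B.card : ℝ) ^ 2 = c * ((B.card : ℝ) ^ 2 / k) := by ring
      _ ≤ _ := mul_le_mul_of_nonneg_right hc (by positivity))
  have h2 : 1 ≤ (2 * (c / k) - 1) * k ^ 100 := by
    have : (2 * (c / k) - 1) * k ^ 100 = (2 * c - k) * k ^ 99 := by
      rw [show (100:ℕ) = 99 + 1 by norm_num, pow_succ]
      field_simp
    rw [this]; exact hmain
  have hk100 : 0 < k ^ 100 := by positivity
  calc ((B + B).card : ℝ) ≤ (B + B).card * ((2 * (c / k) - 1) * k ^ 100) := by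
        exact le_mul_of_one_le_right (by positivity) h2
    _ = (((B + B).card : ℝ) * (2 * (c / k) - 1)) * k ^ 100 := by ring
    _ ≤ B.card * k ^ 100 := mul_le_mul_of_nonneg_right h1 hk100.le
    _ = _ := mul_comm _ _

open Pointwise in
/-- The sumset bound for extremal sets. -/
lemma core {B : Finset G} (hB : B.Nonempty) (hext : Extremal B) {k : ℝ}
    (hkd : k = (B.card : ℝ) ^ 3 / energy B) (hk1 : 1 ≤ k) :
    ((B + B).card : ℝ) ≤ k ^ (max 100 (16 + 2 * Real.log (Real.log k))) * B.card := by
  have hn : (0:ℝ) < B.card := by exact_mod_cast hB.card_pos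
  have hn1 : (1:ℝ) ≤ B.card := by exact_mod_cast hB.card_pos
  have hE : (0:ℝ) < energy B := by exact_mod_cast energy_pos hB
  have hk0 : 0 < k := by linarith
  -- reduction to exponent 100
  have hred : ((B + B).card : ℝ) ≤ k ^ 100 * B.card →
      ((B + B).card : ℝ) ≤ k ^ (max 100 (16 + 2 * Real.log (Real.log k))) * B.card := by
    intro h
    refine h.trans (mul_le_mul_of_nonneg_right ?_ hn.le)
    rw [← Real.rpow_natCast]
    apply Real.rpow_le_rpow_of_exponent_le hk1
    push_cast
    exact le_max_left _ _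
  rcases le_or_gt (149 / 100) k with hk149 | hk149
  · rcases le_or_gt (B.card : ℝ) (10 ^ 5) with hsmall | hlarge
    · apply hred
      apply card_add_self_le_sq
      calc (B.card : ℝ) ≤ 10 ^ 5 := hsmall
        _ ≤ (149 / 100) ^ 100 := by norm_num
        _ ≤ k ^ 100 := pow_le_pow_left₀ (by norm_num) hk149 100
    · exact large_regime hB hext hkd hk149 hlarge.le
  apply hred
  rcases le_or_gt (12 / 10) k with hk12 | hk12
  · rcases le_or_gt (B.card : ℝ) (10 ^ 7) with hsmall | hlarge
    · apply card_add_self_le_sq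
      calc (B.card : ℝ) ≤ 10 ^ 7 := hsmall
        _ ≤ (12 / 10) ^ 100 := by norm_num
        _ ≤ k ^ 100 := pow_le_pow_left₀ (by norm_num) hk12 100
    · apply two_step_bound hB hext hkd hk1 (c := 7474 / 10000)
      · have : 1 / (B.card : ℝ) ≤ 1 / 10 ^ 7 := one_div_le_one_div_of_le (by norm_num) hlarge.le
        have h2 : (1:ℝ) / 10 ^ 7 = 1 / 10000000 := by norm_num
        rw [h2] at this
        linarith
      · calc (1:ℝ) ≤ (2 * (7474 / 10000) - 149 / 100) * (12 / 10) ^ 99 := by norm_num
          _ ≤ _ := mul_le_mul (by linarith) (pow_le_pow_left₀ (by norm_num) hk12 99) (by positivity)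
            (by linarith)
  rcases le_or_gt (1000 / 983) k with hkm | hkm
  · rcases le_or_gt B.card 5 with hsmall | hlarge
    · apply card_add_self_le_sq
      have : (B.card : ℝ) ≤ 5 := by exact_mod_cast hsmall
      calc (B.card : ℝ) ≤ 5 := this
        _ ≤ (1000 / 983) ^ 100 := by norm_num
        _ ≤ k ^ 100 := pow_le_pow_left₀ (by norm_num) hkm 100
    · apply two_step_bound hB hext hkd hk1 (c := 6229 / 10000)
      · have h6 : (6:ℝ) ≤ B.card := by exact_mod_cast hlarge
        have : 1 / (B.card : ℝ) ≤ 1 / 6 := one_div_le_one_div_of_le (by norm_num) h6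
        linarith
      · have := pow_bound_one hkm hk12.le
        norm_num at this ⊢
        exact this
  -- energy close to the maximum
  obtain ⟨η, hη⟩ : ∃ η, η = 1 - 1 / k := ⟨_, rfl⟩
  have hEη : (1 - η) * (B.card : ℝ) ^ 3 = energy B := by
    rw [hη, hkd]; field_simp; ring
  have hη0 : 0 ≤ η := by
    rw [hη, sub_nonneg, div_le_one hk0]; exact hk1
  have hη17 : η < 17 / 1000 := by
    have : 983 / 1000 < 1 / k := by
      rw [lt_div_iff₀ hk0]
      linarith
    rw [hη]; linarith
  have hdeg := fun z (hz : z ∈ B) => deg_lower hext hz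
  have hkη : 1 + η ≤ k := by
    have h1 : k * (1 - η) = 1 := by rw [hη]; field_simp; ring
    nlinarith
  have hk100 : 1 + 100 * η ≤ k ^ 100 := by
    calc 1 + 100 * η = 1 + ((100:ℕ):ℝ) * η := by norm_num
      _ ≤ (1 + η) ^ 100 := one_add_mul_le_pow (by linarith) 100
      _ ≤ k ^ 100 := pow_le_pow_left₀ (by linarith) hkη 100
  have hfin : ∀ s : ℝ, 0 ≤ s → ((B + B).card : ℝ) * s ≤ B.card → 1 ≤ s * k ^ 100 →
      ((B + B).card : ℝ) ≤ k ^ 100 * B.card := by
    intro s hs h1 h2
    calc ((B + B).card : ℝ) ≤ (B + B).card * (s * k ^ 100) :=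
          le_mul_of_one_le_right (by positivity) h2
      _ = (((B + B).card : ℝ) * s) * k ^ 100 := by ring
      _ ≤ B.card * k ^ 100 := mul_le_mul_of_nonneg_right h1 (by positivity)
      _ = _ := mul_comm _ _
  rcases le_or_gt η (1 / 100) with hη1 | hη1
  · rcases hη0.eq_or_lt with h0 | hpos
    · -- η = 0 : the set is a coset
      obtain ⟨η', hη'⟩ : ∃ η' : ℝ, η' = 1 / (1000 * (B.card + 1)) := ⟨_, rfl⟩
      have hp : 0 < η' := by rw [hη']; positivity
      have hη'1 : η' ≤ 1 / 1000 := by
        rw [hη']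
        apply one_div_le_one_div_of_le (by norm_num)
        nlinarith
      have e1 : η' / (8 * η') = 1 / 8 := by field_simp
      have e2 : η' / (2 * (8 * η')) = 1 / 16 := by field_simp; norm_num
      have h1 := near_max hB (η := η') (t := 8 * η') (by positivity) (by linarith) hp.le
        (by
          rw [← hEη, ← h0]
          apply mul_le_mul_of_nonneg_right _ (by positivity)
          linarith)
        (by rw [e1]; linarith) hdeg (by rw [e2]; norm_num) (by rw [e2]; linarith)
      have h2 : (B + B).card ≤ B.card := by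
        by_contra hcon
        push Not at hcon
        have h3 : (B.card : ℝ) + 1 ≤ (B + B).card := by exact_mod_cast hcon
        have h4 : ((B.card : ℝ) + 1) * (1 - 2 * (8 * η')) ≤ B.card :=
          (mul_le_mul_of_nonneg_right h3 (by linarith)).trans h1
        have h5 : ((B.card : ℝ) + 1) * η' = 1 / 1000 := by rw [hη']; field_simp
        nlinarith
      have h3 : ((B + B).card : ℝ) ≤ B.card := by exact_mod_cast h2
      have h4 : 1 ≤ k ^ 100 := one_le_pow₀ hk1
      nlinarith
    · have e1 : η / (8 * η) = 1 / 8 := by field_simp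
      have e2 : η / (2 * (8 * η)) = 1 / 16 := by field_simp; norm_num
      have h1 := near_max hB (η := η) (t := 8 * η) (by positivity) (by linarith) hpos.le hEη.le
        (by rw [e1]; linarith) hdeg (by rw [e2]; norm_num) (by rw [e2]; linarith)
      apply hfin _ (by linarith) h1
      have : (1 - 2 * (8 * η)) * (1 + 100 * η) ≤ (1 - 2 * (8 * η)) * k ^ 100 :=
        mul_le_mul_of_nonneg_left hk100 (by linarith)
      nlinarith
  · have h0 : η / (117 / 2000) ≤ 2907 / 10000 := by
      rw [div_le_iff₀ (by norm_num)]; linarith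
    have h0' : η / (2 * (117 / 2000)) ≤ 14535 / 100000 := by
      rw [div_le_iff₀ (by norm_num)]; linarith
    have h1 := near_max hB (η := η) (t := 117 / 2000) (by norm_num) (by norm_num) hη0 hEη.le
        (by nlinarith) hdeg (by linarith) (by nlinarith)
    apply hfin _ (by norm_num) h1
    have : (1 - 2 * (117 / 2000)) * (1 + 100 * η) ≤ (1 - 2 * (117 / 2000)) * k ^ 100 :=
        mul_le_mul_of_nonneg_left hk100 (by norm_num)
    nlinarith

end Pool.Agent.BSGX2.Core
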