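import Mathlib
import Pool.Agent.BSGX2.Base

/-!
# The lower bound for the number of weighted triples through a fibre
-/

namespace Pool.Agent.BSGX2

open Finset Pool.Agent.BSGEnergy

set_option linter.unusedSectionVars false

variable {G Γ : Type*} [AddCommGroup G] [DecidableEq G] [AddCommGroup Γ] [DecidableEq Γ]

lemma wt_fib (π : G →+ Γ) (B X : Finset G) (x₀ x : Γ) :
    wt π B (fib π X x₀) x = if x = x₀ then wt π B X x₀ else 0 := by
  unfold wt fib
  split_ifs with h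
  · subst h
    rw [Finset.filter_filter]
    simp
  · rw [Finset.filter_filter]
    have : X.filter (fun g => π g = x₀ ∧ π g = x) = ∅ := by
      apply Finset.filter_eq_empty_iff.mpr
      rintro g _ ⟨h1, h2⟩
      exact h (h2.symm.trans h1)
    rw [this]; simp

lemma wt_sdiff (π : G →+ Γ) (B X : Finset G) (x₀ x : Γ) :
    wt π B (X \ fib π X x₀) x = if x = x₀ then 0 else wt π B X x := by
  unfold wt
  split_ifs with h
  · have : fib π (X \ fib π X x₀) x = ∅ := by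
      apply Finset.filter_eq_empty_iff.mpr
      intro g hg h1
      rw [Finset.mem_sdiff] at hg
      exact hg.2 (Finset.mem_filter.mpr ⟨hg.1, h1.trans h⟩)
    rw [this]; simp
  · have : fib π (X \ fib π X x₀) x = fib π X x := by
      ext g
      simp only [fib, Finset.mem_filter, Finset.mem_sdiff]
      constructor
      · rintro ⟨⟨h1, _⟩, h3⟩; exact ⟨h1, h3⟩
      · rintro ⟨h1, h3⟩
        refine ⟨⟨h1, ?_⟩, h3⟩
        rintro ⟨_, h4⟩
        exact h (h3.symm.trans h4)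
    rw [this]

lemma F_lower {B : Finset G} (hB : B.Nonempty) (hext : Extremal B) [Fintype Γ] (π : G →+ Γ)
    {x₀ : Γ} (hx : 0 < wt π B B x₀) :
    299 / 400 * (1 - 1 / (B.card : ℝ)) * wt π B B x₀ ^ (101 / 400 : ℝ) ≤
      ∑ x, ∑ y, wt π B B x ^ (299 / 400 : ℝ) *
        (wt π B B y ^ (299 / 400 : ℝ) * wt π B B (x₀ + x - y) ^ (299 / 400 : ℝ)) := by
  have hn : (0:ℝ) < B.card := by exact_mod_cast hB.card_pos
  have hEB : (0:ℝ) < energy B := by exact_mod_cast energy_pos hB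
  have h1 := quad_le_wt hB hext π (fib_subset π B x₀) (subset_refl B) (subset_refl B)
    (subset_refl B)
  have h2 : (quad (fib π B x₀) B B B : ℝ) = ∑ b ∈ fib π B x₀, (deg B b : ℝ) := by
    rw [← sum_quad_single]
    push_cast
    apply Finset.sum_congr rfl; intro b _
    rw [deg_eq]
  have h3 : ((fib π B x₀).card : ℝ) * (299 / 400 * (1 - 1 / (B.card : ℝ)) *
      ((energy B : ℝ) / B.card)) ≤ ∑ b ∈ fib π B x₀, (deg B b : ℝ) := by
    rw [← nsmul_eq_mul]
    exact Finset.card_nsmul_le_sum _ _ _ fun b hb => deg_lower hext (fib_subset π B x₀ hb)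
  rw [h2] at h1
  have h4 := h3.trans h1
  have h5 : ∑ x₁, ∑ x₂, ∑ x₃, (wt π B (fib π B x₀) x₁ ^ (299 / 400 : ℝ) *
      wt π B B x₂ ^ (299 / 400 : ℝ) *
      (wt π B B x₃ ^ (299 / 400 : ℝ) * wt π B B (x₁ + x₂ - x₃) ^ (299 / 400 : ℝ))) =
      wt π B B x₀ ^ (299 / 400 : ℝ) * ∑ x, ∑ y, wt π B B x ^ (299 / 400 : ℝ) *
        (wt π B B y ^ (299 / 400 : ℝ) * wt π B B (x₀ + x - y) ^ (299 / 400 : ℝ)) := by
    rw [Finset.sum_eq_single x₀]
    · rw [Finset.mul_sum]
      apply Finset.sum_congr rfl; intro x _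
      rw [Finset.mul_sum]
      apply Finset.sum_congr rfl; intro y _
      rw [wt_fib, if_pos rfl]
      ring
    · intro x₁ _ hne
      apply Finset.sum_eq_zero; intro x _
      apply Finset.sum_eq_zero; intro y _
      rw [wt_fib, if_neg hne, Real.zero_rpow (by norm_num)]
      ring
    · intro h; exact absurd (Finset.mem_univ _) h
  rw [h5] at h4
  obtain ⟨F, hF⟩ : ∃ F, F = ∑ x, ∑ y, wt π B B x ^ (299 / 400 : ℝ) *
        (wt π B B y ^ (299 / 400 : ℝ) * wt π B B (x₀ + x - y) ^ (299 / 400 : ℝ)) := ⟨_, rfl⟩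
  rw [← hF] at h4 ⊢
  have h6 : ((fib π B x₀).card : ℝ) = wt π B B x₀ * B.card := by
    unfold wt
    rw [div_mul_cancel₀ _ hn.ne']
  rw [h6] at h4
  obtain ⟨s, hs⟩ : ∃ s, s = wt π B B x₀ := ⟨_, rfl⟩
  rw [← hs] at h4 hx ⊢
  have h7 : s = s ^ (299 / 400 : ℝ) * s ^ (101 / 400 : ℝ) := by
    rw [← Real.rpow_add hx]; norm_num
  have h8 : 0 < s ^ (299 / 400 : ℝ) := Real.rpow_pos_of_pos hx _
  obtain ⟨u, hu⟩ : ∃ u, u = s ^ (299 / 400 : ℝ) := ⟨_, rfl⟩
  obtain ⟨v, hv⟩ : ∃ v, v = s ^ (101 / 400 : ℝ) := ⟨_, rfl⟩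
  obtain ⟨c, hc⟩ : ∃ c, c = 299 / 400 * (1 - 1 / (B.card : ℝ)) := ⟨_, rfl⟩
  rw [← hu, ← hv] at h7
  rw [← hu] at h8 h4
  rw [← hc] at h4 ⊢
  rw [← hv]
  have h9 : (energy B * u) * (c * v) ≤ (energy B * u) * F := by
    have hE' : ((energy B : ℝ) / B.card) * B.card = energy B := div_mul_cancel₀ _ hn.ne'
    calc (energy B * u) * (c * v)
        = ((((energy B : ℝ) / B.card) * B.card) * u) * (c * v) := by rw [hE']
      _ = (u * v) * B.card * (c * ((energy B : ℝ) / B.card)) := by ring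
      _ = s * B.card * (c * ((energy B : ℝ) / B.card)) := by rw [← h7]
      _ ≤ energy B * (u * F) := h4
      _ = _ := by ring
  exact le_of_mul_le_mul_left h9 (by positivity)

end Pool.Agent.BSGX2
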