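import Mathlib

/-!
# A pointwise form of Young's inequality for three functions
-/

namespace Pool.Agent.BSGX2

open Finset

lemma amgm3 {a b c α β γ : ℝ} (ha : 0 ≤ a) (hb : 0 ≤ b) (hc : 0 ≤ c)
    (hα0 : 0 ≤ α) (hα1 : α ≤ 1) (hβ0 : 0 ≤ β) (hβ1 : β ≤ 1) (hγ0 : 0 ≤ γ) (hγ1 : γ ≤ 1)
    (hsum : α + β + γ = 2) :
    a ^ α * (b ^ β * c ^ γ) ≤ (1 - γ) * (a * b) + (1 - α) * (b * c) + (1 - β) * (a * c) := by
  have h := Real.geom_mean_le_arith_mean3_weighted (w₁ := 1 - γ) (w₂ := 1 - α) (w₃ := 1 - β)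
    (p₁ := a * b) (p₂ := b * c) (p₃ := a * c) (by linarith) (by linarith) (by linarith)
    (by positivity) (by positivity) (by positivity) (by linarith)
  refine le_trans (le_of_eq ?_) h
  rw [Real.mul_rpow ha hb, Real.mul_rpow hb hc, Real.mul_rpow ha hc]
  have e1 : a ^ α = a ^ (1 - γ) * a ^ (1 - β) := by
    rw [← Real.rpow_add_of_nonneg ha (by linarith) (by linarith)]; congr 1; linarith
  have e2 : b ^ β = b ^ (1 - γ) * b ^ (1 - α) := by
    rw [← Real.rpow_add_of_nonneg hb (by linarith) (by linarith)]; congr 1; linarith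
  have e3 : c ^ γ = c ^ (1 - α) * c ^ (1 - β) := by
    rw [← Real.rpow_add_of_nonneg hc (by linarith) (by linarith)]; congr 1; linarith
  rw [e1, e2, e3]
  ring

variable {Γ : Type*} [AddCommGroup Γ] [Fintype Γ]

lemma young3 {a b c : Γ → ℝ} (ha : ∀ x, 0 ≤ a x) (hb : ∀ x, 0 ≤ b x) (hc : ∀ x, 0 ≤ c x)
    {α β γ : ℝ}
    (hα0 : 0 ≤ α) (hα1 : α ≤ 1) (hβ0 : 0 ≤ β) (hβ1 : β ≤ 1) (hγ0 : 0 ≤ γ) (hγ1 : γ ≤ 1)
    (hsum : α + β + γ = 2) {A : ℝ} (hA : 0 ≤ A) (hsa : ∑ x, a x ≤ A) (hsb : ∑ x, b x ≤ A)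
    (hsc : ∑ x, c x ≤ A) (t : Γ) :
    ∑ x, ∑ y, a x ^ α * (b y ^ β * c (t + x - y) ^ γ) ≤ A ^ 2 := by
  have h1 : ∑ x, ∑ y, a x ^ α * (b y ^ β * c (t + x - y) ^ γ) ≤
      ∑ x, ∑ y, ((1 - γ) * (a x * b y) + (1 - α) * (b y * c (t + x - y)) +
        (1 - β) * (a x * c (t + x - y))) := by
    apply Finset.sum_le_sum; intro x _
    apply Finset.sum_le_sum; intro y _
    exact amgm3 (ha x) (hb y) (hc _) hα0 hα1 hβ0 hβ1 hγ0 hγ1 hsum
  refine h1.trans ?_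
  simp only [Finset.sum_add_distrib, ← Finset.mul_sum]
  have a0 : 0 ≤ ∑ x, a x := Finset.sum_nonneg fun x _ => ha x
  have b0 : 0 ≤ ∑ x, b x := Finset.sum_nonneg fun x _ => hb x
  have c0 : 0 ≤ ∑ x, c x := Finset.sum_nonneg fun x _ => hc x
  have e1 : ∑ x, a x * ∑ y, b y ≤ A ^ 2 := by
    rw [← Finset.sum_mul, sq]
    exact mul_le_mul hsa hsb b0 hA
  have sh1 : ∀ y, ∑ x, c (t + x - y) = ∑ x, c x := by
    intro y
    have := Equiv.sum_comp (Equiv.addRight (t - y)) c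
    rw [← this]
    apply Finset.sum_congr rfl; intro x _
    congr 1
    simp only [Equiv.coe_addRight]; abel
  have sh2 : ∀ x, ∑ y, c (t + x - y) = ∑ y, c y := by
    intro x
    have := Equiv.sum_comp (Equiv.subLeft (t + x)) c
    rw [← this]
    apply Finset.sum_congr rfl; intro y _
    simp
  have e2 : ∑ x, ∑ y, b y * c (t + x - y) ≤ A ^ 2 := by
    rw [Finset.sum_comm]
    simp_rw [← Finset.mul_sum, sh1]
    rw [← Finset.sum_mul, sq]
    exact mul_le_mul hsb hsc c0 hA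
  have e3 : ∑ x, a x * ∑ y, c (t + x - y) ≤ A ^ 2 := by
    simp_rw [sh2]
    rw [← Finset.sum_mul, sq]
    exact mul_le_mul hsa hsc c0 hA
  have w1 : 0 ≤ 1 - γ := by linarith
  have w2 : 0 ≤ 1 - α := by linarith
  have w3 : 0 ≤ 1 - β := by linarith
  calc (1 - γ) * ∑ x, a x * ∑ y, b y + (1 - α) * ∑ x, ∑ y, b y * c (t + x - y) +
        (1 - β) * ∑ x, a x * ∑ y, c (t + x - y)
      ≤ (1 - γ) * A ^ 2 + (1 - α) * A ^ 2 + (1 - β) * A ^ 2 := by gcongr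
    _ = A ^ 2 := by
      have : 1 - γ + (1 - α) + (1 - β) = 1 := by linarith
      rw [← add_mul, ← add_mul, this, one_mul]

/-- the special case `a = b = c` bounded pointwise -/
lemma young_small {w : Γ → ℝ} (hw : ∀ x, 0 ≤ w x) {κ : ℝ} (hκ : ∀ x, w x ≤ κ) (hκ0 : 0 ≤ κ)
    {A : ℝ} (hA : 0 ≤ A) (hs : ∑ x, w x ≤ A) (t : Γ) :
    ∑ x, ∑ y, w x ^ (299 / 400 : ℝ) * (w y ^ (299 / 400 : ℝ) *
      w (t + x - y) ^ (299 / 400 : ℝ)) ≤ κ ^ (97 / 400 : ℝ) * A ^ 2 := by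
  have hsplit : ∀ x, w x ^ (299 / 400 : ℝ) ≤ κ ^ (97 / 1200 : ℝ) * w x ^ (2 / 3 : ℝ) := by
    intro x
    have e : w x ^ (299 / 400 : ℝ) = w x ^ (97 / 1200 : ℝ) * w x ^ (2 / 3 : ℝ) := by
      rw [← Real.rpow_add_of_nonneg (hw x) (by norm_num) (by norm_num)]; norm_num
    rw [e]
    exact mul_le_mul_of_nonneg_right (Real.rpow_le_rpow (hw x) (hκ x) (by norm_num))
      (Real.rpow_nonneg (hw x) _)
  have hy := young3 hw hw hw (α := 2 / 3) (β := 2 / 3) (γ := 2 / 3) (by norm_num) (by norm_num)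
    (by norm_num) (by norm_num) (by norm_num) (by norm_num) (by norm_num) hA hs hs hs t
  have hk : κ ^ (97 / 400 : ℝ) = κ ^ (97 / 1200 : ℝ) * (κ ^ (97 / 1200 : ℝ) * κ ^ (97 / 1200 : ℝ)) := by
    rw [← Real.rpow_add_of_nonneg hκ0 (by norm_num) (by norm_num),
      ← Real.rpow_add_of_nonneg hκ0 (by norm_num) (by norm_num)]; norm_num
  have hk0 : 0 ≤ κ ^ (97 / 1200 : ℝ) := Real.rpow_nonneg hκ0 _
  calc _ ≤ ∑ x, ∑ y, (κ ^ (97 / 1200 : ℝ) * w x ^ (2 / 3 : ℝ)) *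
        ((κ ^ (97 / 1200 : ℝ) * w y ^ (2 / 3 : ℝ)) *
        (κ ^ (97 / 1200 : ℝ) * w (t + x - y) ^ (2 / 3 : ℝ))) := by
        apply Finset.sum_le_sum; intro x _
        apply Finset.sum_le_sum; intro y _
        have h1 := hsplit x
        have h2 := hsplit y
        have h3 := hsplit (t + x - y)
        have n1 := Real.rpow_nonneg (hw x) (299 / 400)
        have n2 := Real.rpow_nonneg (hw y) (299 / 400)
        have n3 := Real.rpow_nonneg (hw (t + x - y)) (299 / 400)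
        have m1 := Real.rpow_nonneg (hw x) (2 / 3)
        have m2 := Real.rpow_nonneg (hw y) (2 / 3)
        have m3 := Real.rpow_nonneg (hw (t + x - y)) (2 / 3)
        gcongr
    _ = κ ^ (97 / 400 : ℝ) * ∑ x, ∑ y, w x ^ (2 / 3 : ℝ) * (w y ^ (2 / 3 : ℝ) *
        w (t + x - y) ^ (2 / 3 : ℝ)) := by
        rw [hk, Finset.mul_sum]
        apply Finset.sum_congr rfl; intro x _
        rw [Finset.mul_sum]
        apply Finset.sum_congr rfl; intro y _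
        ring
    _ ≤ _ := mul_le_mul_of_nonneg_left hy (Real.rpow_nonneg hκ0 _)

end Pool.Agent.BSGX2
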