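import Mathlib
import Pool.Agent.BSGX2.FLower
import Pool.Agent.BSGX2.Young

/-!
# If one coset is heavy then another one is comparable, unless it contains everything
-/

namespace Pool.Agent.BSGX2

open Finset Pool.Agent.BSGEnergy

set_option linter.unusedSectionVars false

variable {G Γ : Type*} [AddCommGroup G] [DecidableEq G] [AddCommGroup Γ] [DecidableEq Γ]

lemma quad_swap23 (hG : ∀ x : G, x + x = 0) (X₁ X₂ X₃ X₄ : Finset G) :
    quad X₁ X₂ X₃ X₄ = quad X₁ X₃ X₂ X₄ := by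
  unfold quad
  apply Finset.sum_congr rfl; intro x₁ _
  rw [Finset.sum_comm]
  apply Finset.sum_congr rfl; intro x₂ _
  apply Finset.sum_congr rfl; intro x₃ _
  apply Finset.sum_congr rfl; intro x₄ _
  have : (x₁ + x₃ = x₂ + x₄) ↔ (x₁ + x₂ = x₃ + x₄) := by
    have h2 := hG x₂
    have h3 := hG x₃
    constructor
    · intro h
      calc x₁ + x₂ = (x₁ + x₃) + x₂ - x₃ := by abel
        _ = (x₂ + x₂) + x₄ - (x₃ + x₃) + x₃ := by rw [h]; abel
        _ = x₃ + x₄ := by rw [h2, h3]; abel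
    · intro h
      calc x₁ + x₃ = (x₁ + x₂) + x₃ - x₂ := by abel
        _ = (x₃ + x₃) + x₄ - (x₂ + x₂) + x₂ := by rw [h]; abel
        _ = x₂ + x₄ := by rw [h2, h3]; abel
  simp only [this]

lemma quad_union (X Y X₂ X₃ X₄ : Finset G) (h : Disjoint X Y) :
    quad (X ∪ Y) X₂ X₃ X₄ = quad X X₂ X₃ X₄ + quad Y X₂ X₃ X₄ := by
  unfold quad
  rw [Finset.sum_union h]

lemma quad_expand (hG : ∀ x : G, x + x = 0) (a b : Finset G) (h : Disjoint a b) :
    quad (a ∪ b) (a ∪ b) (a ∪ b) (a ∪ b) = quad a a a a + 4 * quad a a a b + 6 * quad a a b b +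
      4 * quad a b b b + quad b b b b := by
  have key : ∀ c d : Finset G, quad (a ∪ b) (a ∪ b) c d =
      quad a a c d + 2 * quad a b c d + quad b b c d := by
    intro c d
    rw [quad_union _ _ _ _ _ h, quad_swap a, quad_swap b, quad_union _ _ _ _ _ h,
      quad_union _ _ _ _ _ h, quad_swap b a c d]
    ring
  rw [key, quad_symm a a, quad_symm a b (a ∪ b), quad_symm b b (a ∪ b), key, key, key,
    quad_symm b b a a, quad_symm a b a a, quad_symm b b a b, quad_swap23 hG a b a b]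
  ring

lemma quad_aaab (π : G →+ Γ) (B : Finset G) (x₀ : Γ) :
    quad (fib π B x₀) (fib π B x₀) (fib π B x₀) (B \ fib π B x₀) = 0 := by
  unfold quad
  apply Finset.sum_eq_zero; intro x₁ h₁
  apply Finset.sum_eq_zero; intro x₂ h₂
  apply Finset.sum_eq_zero; intro x₃ h₃
  apply Finset.sum_eq_zero; intro x₄ h₄
  rw [if_neg]
  intro h
  rw [Finset.mem_sdiff] at h₄
  apply h₄.2
  unfold fib at *
  rw [Finset.mem_filter] at *
  refine ⟨h₄.1, ?_⟩
  have h5 := congrArg π h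
  rw [map_add, map_add, h₁.2, h₂.2, h₃.2] at h5
  exact (add_left_cancel h5).symm

lemma merge_real {s : ℝ} (hs : Real.exp (-16) ≤ s) (hs1 : s < 1) :
    s ^ (299 / 100 : ℝ) + 6 * (s ^ (299 / 400 : ℝ) * s ^ (299 / 400 : ℝ) *
      ((s / 1024) ^ (99 / 200 : ℝ) * (1 - s))) +
      4 * (s ^ (299 / 400 : ℝ) * ((s / 1024) ^ (97 / 400 : ℝ) * (1 - s) ^ 2)) +
      (1 - s) ^ (299 / 100 : ℝ) < 1 := by
  have hs0 : 0 < s := (Real.exp_pos _).trans_le hs
  have ht0 : 0 < 1 - s := by linarith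
  have p1 : s ^ (299 / 100 : ℝ) ≤ s ^ 2 := by
    rw [← Real.rpow_natCast]
    exact Real.rpow_le_rpow_of_exponent_ge hs0 hs1.le (by norm_num)
  have p2 : (1 - s) ^ (299 / 100 : ℝ) ≤ (1 - s) ^ 2 := by
    rw [← Real.rpow_natCast (1 - s)]
    exact Real.rpow_le_rpow_of_exponent_ge ht0 (by linarith) (by norm_num)
  have d1 : (s / 1024) ^ (99 / 200 : ℝ) ≤ s ^ (99 / 200 : ℝ) / 16 := by
    rw [Real.div_rpow hs0.le (by norm_num)]
    apply div_le_div_of_nonneg_left (Real.rpow_nonneg hs0.le _) (by norm_num)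
    have : (16 : ℝ) = (2:ℝ) ^ (4:ℝ) := by norm_num
    rw [this, show (1024 : ℝ) = (2:ℝ) ^ (10:ℝ) by norm_num, ← Real.rpow_mul (by norm_num)]
    exact Real.rpow_le_rpow_of_exponent_le (by norm_num) (by norm_num)
  have d2 : (s / 1024) ^ (97 / 400 : ℝ) ≤ s ^ (97 / 400 : ℝ) / 4 := by
    rw [Real.div_rpow hs0.le (by norm_num)]
    apply div_le_div_of_nonneg_left (Real.rpow_nonneg hs0.le _) (by norm_num)
    have : (4 : ℝ) = (2:ℝ) ^ (2:ℝ) := by norm_num
    rw [this, show (1024 : ℝ) = (2:ℝ) ^ (10:ℝ) by norm_num, ← Real.rpow_mul (by norm_num)]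
    exact Real.rpow_le_rpow_of_exponent_le (by norm_num) (by norm_num)
  have q1 : s ^ (299 / 400 : ℝ) * s ^ (299 / 400 : ℝ) * s ^ (99 / 200 : ℝ) ≤ s := by
    rw [← Real.rpow_add hs0, ← Real.rpow_add hs0]
    calc s ^ (299 / 400 + 299 / 400 + 99 / 200 : ℝ) ≤ s ^ (1:ℝ) :=
          Real.rpow_le_rpow_of_exponent_ge hs0 hs1.le (by norm_num)
      _ = s := Real.rpow_one s
  have hexp : s ^ (-(1 / 100) : ℝ) ≤ 12 / 10 := by
    have h1 : s ^ (-(1 / 100) : ℝ) ≤ (Real.exp (-16)) ^ (-(1 / 100) : ℝ) :=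
      Real.rpow_le_rpow_of_nonpos (Real.exp_pos _) hs (by norm_num)
    refine h1.trans ?_
    rw [← Real.exp_mul]
    have h2 : (-16 : ℝ) * (-(1 / 100)) = 16 / 100 := by norm_num
    rw [h2]
    have h3 : Real.exp (16 / 100) ^ 100 ≤ (12 / 10 : ℝ) ^ 100 := by
      rw [← Real.exp_nat_mul]
      have : ((100:ℕ):ℝ) * (16 / 100) = ((16:ℕ):ℝ) * 1 := by norm_num
      rw [this, Real.exp_nat_mul]
      calc Real.exp 1 ^ 16 ≤ (2.7182818286 : ℝ) ^ 16 :=
            pow_le_pow_left₀ (Real.exp_pos _).le Real.exp_one_lt_d9.le 16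
        _ ≤ _ := by norm_num
    exact le_of_pow_le_pow_left₀ (by norm_num) (by norm_num) h3
  have q2 : s ^ (299 / 400 : ℝ) * s ^ (97 / 400 : ℝ) ≤ 12 / 10 * s := by
    rw [← Real.rpow_add hs0]
    have e : (299 / 400 + 97 / 400 : ℝ) = 1 + -(1 / 100) := by norm_num
    rw [e, Real.rpow_add hs0, Real.rpow_one, mul_comm]
    exact mul_le_mul_of_nonneg_right hexp hs0.le
  obtain ⟨u, hu⟩ : ∃ u, u = s ^ (299 / 400 : ℝ) := ⟨_, rfl⟩
  obtain ⟨v, hv⟩ : ∃ v, v = s ^ (99 / 200 : ℝ) := ⟨_, rfl⟩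
  obtain ⟨z, hz⟩ : ∃ z, z = s ^ (97 / 400 : ℝ) := ⟨_, rfl⟩
  obtain ⟨v', hv'⟩ : ∃ v', v' = (s / 1024) ^ (99 / 200 : ℝ) := ⟨_, rfl⟩
  obtain ⟨z', hz'⟩ : ∃ z', z' = (s / 1024) ^ (97 / 400 : ℝ) := ⟨_, rfl⟩
  rw [← hu, ← hv] at q1
  rw [← hu, ← hz] at q2
  rw [← hv, ← hv'] at d1
  rw [← hz, ← hz'] at d2
  rw [← hu, ← hv', ← hz']
  have hu0 : 0 ≤ u := by rw [hu]; exact Real.rpow_nonneg hs0.le _
  have b1 : u * u * (v' * (1 - s)) ≤ s / 16 * (1 - s) := by
    calc u * u * (v' * (1 - s)) ≤ u * u * (v / 16 * (1 - s)) := by gcongr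
      _ = (u * u * v) / 16 * (1 - s) := by ring
      _ ≤ s / 16 * (1 - s) := by gcongr
  have b2 : u * (z' * (1 - s) ^ 2) ≤ 12 / 10 * s / 4 * (1 - s) := by
    have hsq : (1 - s) ^ 2 ≤ (1 - s) := by nlinarith
    calc u * (z' * (1 - s) ^ 2) ≤ u * (z / 4 * (1 - s) ^ 2) := by gcongr
      _ = (u * z) / 4 * (1 - s) ^ 2 := by ring
      _ ≤ (12 / 10 * s) / 4 * (1 - s) ^ 2 := by gcongr
      _ ≤ (12 / 10 * s) / 4 * (1 - s) := by gcongr
  have b3 : 0 < s * (1 - s) := mul_pos hs0 ht0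
  nlinarith

lemma merge_aux {B : Finset G} (hG : ∀ x : G, x + x = 0) (hΓ : ∀ x : Γ, x + x = 0)
    (hB : B.Nonempty) (hext : Extremal B) [Fintype Γ]
    (π : G →+ Γ) {x₀ : Γ} (hs : Real.exp (-16) ≤ wt π B B x₀) (hlt : wt π B B x₀ < 1)
    (hsmall : ∀ x, x ≠ x₀ → wt π B B x ≤ wt π B B x₀ / 1024) : False := by
  have hn : (0:ℝ) < B.card := by exact_mod_cast hB.card_pos
  have hEB : (0:ℝ) < energy B := by exact_mod_cast energy_pos hB
  obtain ⟨s, hsd⟩ : ∃ s, s = wt π B B x₀ := ⟨_, rfl⟩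
  have hs0 : 0 < s := by rw [hsd]; exact (Real.exp_pos _).trans_le hs
  have hun : fib π B x₀ ∪ (B \ fib π B x₀) = B :=
    Finset.union_sdiff_of_subset (fib_subset π B x₀)
  have hexpd := quad_expand hG (fib π B x₀) (B \ fib π B x₀) Finset.disjoint_sdiff
  rw [hun, ← energy_eq, ← energy_eq, ← energy_eq, quad_aaab] at hexpd
  have hA : fib π B x₀ ⊆ B := fib_subset π B x₀
  have hC : B \ fib π B x₀ ⊆ B := Finset.sdiff_subset
  have cA : ((fib π B x₀).card : ℝ) / B.card = s := by rw [hsd]; rfl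
  have cC : ((B \ fib π B x₀).card : ℝ) / B.card = 1 - s := by
    rw [Finset.card_sdiff_of_subset hA, Nat.cast_sub (Finset.card_le_card hA), sub_div, cA,
      div_self hn.ne']
  have e1 := energy_le_rpow hB hext hA
  have e4 := energy_le_rpow hB hext hC
  rw [cA] at e1
  rw [cC] at e4
  -- the weight outside
  obtain ⟨w, hw⟩ : ∃ w : Γ → ℝ, w = wt π B (B \ fib π B x₀) := ⟨_, rfl⟩
  have hw0 : ∀ x, 0 ≤ w x := by intro x; rw [hw]; exact wt_nonneg _ _ _ _
  have hwk : ∀ x, w x ≤ s / 1024 := by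
    intro x
    rw [hw, wt_sdiff]
    split_ifs with h
    · positivity
    · rw [hsd]; exact hsmall x h
  have hwsum : ∑ x, w x = 1 - s := by
    rw [hw, sum_wt, cC]
  have ht0 : 0 ≤ 1 - s := by rw [hsd]; linarith
  have e2 := quad_le_wt hB hext π hA hA hC hC
  have e3 := quad_le_wt hB hext π hA hC hC hC
  have f2 : ∑ x₁, ∑ x₂, ∑ x₃, (wt π B (fib π B x₀) x₁ ^ (299 / 400 : ℝ) *
      wt π B (fib π B x₀) x₂ ^ (299 / 400 : ℝ) *
      (wt π B (B \ fib π B x₀) x₃ ^ (299 / 400 : ℝ) *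
        wt π B (B \ fib π B x₀) (x₁ + x₂ - x₃) ^ (299 / 400 : ℝ))) =
      s ^ (299 / 400 : ℝ) * s ^ (299 / 400 : ℝ) * ∑ x, w x ^ (299 / 400 : ℝ) *
        w x ^ (299 / 400 : ℝ) := by
    rw [Finset.sum_eq_single x₀, Finset.sum_eq_single x₀]
    · rw [Finset.mul_sum]
      apply Finset.sum_congr rfl; intro x _
      rw [wt_fib, if_pos rfl, ← hsd, ← hw]
      have : x₀ + x₀ - x = x := by
        have h1 := hΓ x
        have h2 := hΓ x₀
        rw [h2, zero_sub]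
        exact neg_eq_of_add_eq_zero_left h1
      rw [this]
    · intro x₂ _ hne
      apply Finset.sum_eq_zero; intro y _
      rw [wt_fib π B B x₀ x₂, if_neg hne, Real.zero_rpow (by norm_num)]
      ring
    · intro h; exact absurd (Finset.mem_univ _) h
    · intro x₁ _ hne
      apply Finset.sum_eq_zero; intro x _
      apply Finset.sum_eq_zero; intro y _
      rw [wt_fib π B B x₀ x₁, if_neg hne, Real.zero_rpow (by norm_num)]
      ring
    · intro h; exact absurd (Finset.mem_univ _) h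
  have f3 : ∑ x₁, ∑ x₂, ∑ x₃, (wt π B (fib π B x₀) x₁ ^ (299 / 400 : ℝ) *
      wt π B (B \ fib π B x₀) x₂ ^ (299 / 400 : ℝ) *
      (wt π B (B \ fib π B x₀) x₃ ^ (299 / 400 : ℝ) *
        wt π B (B \ fib π B x₀) (x₁ + x₂ - x₃) ^ (299 / 400 : ℝ))) =
      s ^ (299 / 400 : ℝ) * ∑ x, ∑ y, w x ^ (299 / 400 : ℝ) *
        (w y ^ (299 / 400 : ℝ) * w (x₀ + x - y) ^ (299 / 400 : ℝ)) := by
    rw [Finset.sum_eq_single x₀]
    · rw [Finset.mul_sum]
      apply Finset.sum_congr rfl; intro x _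
      rw [Finset.mul_sum]
      apply Finset.sum_congr rfl; intro y _
      rw [wt_fib, if_pos rfl, ← hsd, ← hw]
      ring
    · intro x₁ _ hne
      apply Finset.sum_eq_zero; intro x _
      apply Finset.sum_eq_zero; intro y _
      rw [wt_fib π B B x₀ x₁, if_neg hne, Real.zero_rpow (by norm_num)]
      ring
    · intro h; exact absurd (Finset.mem_univ _) h
  rw [f2] at e2
  rw [f3] at e3
  have g2 : ∑ x, w x ^ (299 / 400 : ℝ) * w x ^ (299 / 400 : ℝ) ≤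
      (s / 1024) ^ (99 / 200 : ℝ) * (1 - s) := by
    rw [← hwsum, Finset.mul_sum]
    apply Finset.sum_le_sum; intro x _
    rw [← Real.rpow_add_of_nonneg (hw0 x) (by norm_num) (by norm_num)]
    have e : (299 / 400 + 299 / 400 : ℝ) = 99 / 200 + 1 := by norm_num
    rw [e, Real.rpow_add_of_nonneg (hw0 x) (by norm_num) (by norm_num), Real.rpow_one]
    exact mul_le_mul_of_nonneg_right (Real.rpow_le_rpow (hw0 x) (hwk x) (by norm_num)) (hw0 x)
  have g3 := young_small hw0 hwk (by positivity) ht0 hwsum.le x₀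
  have hsθ : 0 ≤ s ^ (299 / 400 : ℝ) := Real.rpow_nonneg hs0.le _
  have e2' : (quad (fib π B x₀) (fib π B x₀) (B \ fib π B x₀) (B \ fib π B x₀) : ℝ) ≤
      energy B * (s ^ (299 / 400 : ℝ) * s ^ (299 / 400 : ℝ) *
      ((s / 1024) ^ (99 / 200 : ℝ) * (1 - s))) := by
    refine e2.trans ?_
    gcongr
  have e3' : (quad (fib π B x₀) (B \ fib π B x₀) (B \ fib π B x₀) (B \ fib π B x₀) : ℝ) ≤
      energy B * (s ^ (299 / 400 : ℝ) * ((s / 1024) ^ (97 / 400 : ℝ) * (1 - s) ^ 2)) := by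
    refine e3.trans ?_
    gcongr
  have hreal := merge_real (s := s) (by rw [hsd]; exact hs) (by rw [hsd]; exact hlt)
  have hexp' : (energy B : ℝ) = energy (fib π B x₀) + 4 * 0 +
      6 * quad (fib π B x₀) (fib π B x₀) (B \ fib π B x₀) (B \ fib π B x₀) +
      4 * quad (fib π B x₀) (B \ fib π B x₀) (B \ fib π B x₀) (B \ fib π B x₀) +
      energy (B \ fib π B x₀) := by
    exact_mod_cast hexpd
  have := mul_lt_mul_of_pos_left hreal hEB
  nlinarith

end Pool.Agent.BSGX2
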