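import Mathlib
import Pool.Agent.BSGX2.Merge

/-!
# A heavy coset can be enlarged to a coset which contains the whole extremal set
-/

namespace Pool.Agent.BSGX2

open Finset Pool.Agent.BSGEnergy

set_option linter.unusedSectionVars false

variable {G : Type*} [AddCommGroup G] [DecidableEq G]

/-- the number of elements of `B` in the coset `x + H` -/
noncomputable def cs (B : Finset G) (H : AddSubgroup G) (x : G) : ℕ := by
  classical exact (B.filter (fun g => g - x ∈ H)).card

lemma cs_le (B : Finset G) (H : AddSubgroup G) (x : G) : cs B H x ≤ B.card := by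
  classical
  unfold cs
  exact Finset.card_filter_le _ _

open Classical in
lemma wt_mk (B : Finset G) (H : AddSubgroup G) (x : G) :
    wt (QuotientAddGroup.mk' H) B B (QuotientAddGroup.mk' H x) = (cs B H x : ℝ) / B.card := by
  unfold wt cs fib
  congr 3
  apply Finset.filter_congr
  intro g _
  rw [QuotientAddGroup.mk'_apply, QuotientAddGroup.mk'_apply, eq_comm, QuotientAddGroup.eq]
  have : -x + g = g - x := by abel
  rw [this]

/-- the subgroup generated by `H` and `a`, in exponent two -/
def adj (hG : ∀ x : G, x + x = 0) (H : AddSubgroup G) (a : G) : AddSubgroup G where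
  carrier := {g | g ∈ H ∨ g - a ∈ H}
  zero_mem' := Or.inl H.zero_mem
  add_mem' := by
    rintro x y (hx | hx) (hy | hy)
    · exact Or.inl (H.add_mem hx hy)
    · right
      have : x + y - a = x + (y - a) := by abel
      rw [this]; exact H.add_mem hx hy
    · right
      have : x + y - a = (x - a) + y := by abel
      rw [this]; exact H.add_mem hx hy
    · left
      have : x + y = (x - a) + (y - a) + (a + a) := by abel
      rw [this, hG a, add_zero]; exact H.add_mem hx hy
  neg_mem' := by
    rintro x hx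
    have : -x = x := neg_eq_of_add_eq_zero_left (hG x)
    rw [this]; exact hx

lemma card_adj [Finite G] (hG : ∀ x : G, x + x = 0) (H : AddSubgroup G) (a : G) :
    Nat.card (adj hG H a) ≤ 2 * Nat.card H := by
  have h1 : ((adj hG H a : AddSubgroup G) : Set G) ⊆ (H : Set G) ∪ (fun g => g + a) '' (H : Set G) := by
    rintro g (hg | hg)
    · exact Or.inl hg
    · right
      exact ⟨g - a, hg, by simp⟩
  have h2 : ((adj hG H a : AddSubgroup G) : Set G).ncard ≤
      ((H : Set G) ∪ (fun g => g + a) '' (H : Set G)).ncard := Set.ncard_le_ncard h1 (Set.toFinite _)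
  have h3 := Set.ncard_union_le (H : Set G) ((fun g => g + a) '' (H : Set G))
  have h4 := Set.ncard_image_le (f := fun g => g + a) (Set.toFinite (H : Set G))
  have h5 : ((adj hG H a : AddSubgroup G) : Set G).ncard = Nat.card (adj hG H a) :=
    Nat.card_coe_set_eq _
  have h6 : (H : Set G).ncard = Nat.card H := Nat.card_coe_set_eq _
  omega

open Classical in
lemma cs_adj (hG : ∀ x : G, x + x = 0) (B : Finset G) (H : AddSubgroup G) {x₀ x : G}
    (h : x - x₀ ∉ H) : cs B H x₀ + cs B H x ≤ cs B (adj hG H (x - x₀)) x₀ := by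
  unfold cs
  rw [← Finset.card_union_of_disjoint]
  · apply Finset.card_le_card
    intro g hg
    rw [Finset.mem_union, Finset.mem_filter, Finset.mem_filter] at hg
    rw [Finset.mem_filter]
    rcases hg with ⟨h1, h2⟩ | ⟨h1, h2⟩
    · exact ⟨h1, Or.inl h2⟩
    · refine ⟨h1, Or.inr ?_⟩
      have : g - x₀ - (x - x₀) = g - x := by abel
      rw [this]; exact h2
  · rw [Finset.disjoint_left]
    intro g hg1 hg2
    rw [Finset.mem_filter] at hg1 hg2
    apply h
    have : x - x₀ = (g - x₀) - (g - x) := by abel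
    rw [this]
    exact H.sub_mem hg1.2 hg2.2

open Classical in
lemma merge_step [Finite G] {B : Finset G} (hG : ∀ x : G, x + x = 0) (hB : B.Nonempty)
    (hext : Extremal B) (H : AddSubgroup G) (x₀ : G)
    (hs : Real.exp (-16) * B.card ≤ cs B H x₀) :
    cs B H x₀ = B.card ∨ ∃ H' : AddSubgroup G, Nat.card H' ≤ 2 * Nat.card H ∧
      (1 + 1 / 1024 : ℝ) * cs B H x₀ ≤ cs B H' x₀ := by
  have hn : (0:ℝ) < B.card := by exact_mod_cast hB.card_pos
  by_contra hcon
  push Not at hcon
  obtain ⟨hne, hH⟩ := hcon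
  have hlt : cs B H x₀ < B.card := lt_of_le_of_ne (cs_le _ _ _) hne
  letI : Fintype (G ⧸ H) := Fintype.ofFinite _
  have hΓ : ∀ x : G ⧸ H, x + x = 0 := by
    intro x
    obtain ⟨g, rfl⟩ := QuotientAddGroup.mk_surjective x
    rw [← QuotientAddGroup.mk_add, hG g, QuotientAddGroup.mk_zero]
  apply merge_aux hG hΓ hB hext (QuotientAddGroup.mk' H) (x₀ := QuotientAddGroup.mk' H x₀)
  · rw [wt_mk, le_div_iff₀ hn]; exact hs
  · rw [wt_mk, div_lt_one hn]; exact_mod_cast hlt
  · intro y hy
    obtain ⟨x, rfl⟩ := QuotientAddGroup.mk'_surjective H y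
    rw [wt_mk, wt_mk]
    have hx : x - x₀ ∉ H := by
      intro hx
      apply hy
      rw [QuotientAddGroup.mk'_apply, QuotientAddGroup.mk'_apply, eq_comm, QuotientAddGroup.eq]
      have : -x₀ + x = x - x₀ := by abel
      rw [this]; exact hx
    have h1 := hH (adj hG H (x - x₀)) (card_adj hG H _)
    have h2 : (cs B H x₀ : ℝ) + cs B H x ≤ cs B (adj hG H (x - x₀)) x₀ := by
      exact_mod_cast cs_adj hG B H hx
    rw [div_div, mul_comm (B.card : ℝ), ← div_div]
    apply div_le_div_of_nonneg_right _ hn.le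
    linarith

lemma iterate [Finite G] {B : Finset G} (hG : ∀ x : G, x + x = 0) (hB : B.Nonempty)
    (hext : Extremal B) (H : AddSubgroup G) (x₀ : G)
    (hs : Real.exp (-16) * B.card ≤ cs B H x₀) (j : ℕ) :
    ∃ H' : AddSubgroup G, Nat.card H' ≤ 2 ^ j * Nat.card H ∧
      (cs B H' x₀ = B.card ∨ (1 + 1 / 1024 : ℝ) ^ j * (Real.exp (-16) * B.card) ≤ cs B H' x₀) := by
  induction j with
  | zero => exact ⟨H, by simp, Or.inr (by simpa using hs)⟩
  | succ j ih =>
    obtain ⟨H', hcard, h⟩ := ih
    have hpow : Nat.card H' ≤ 2 ^ (j + 1) * Nat.card H := by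
      refine hcard.trans (Nat.mul_le_mul_right _ ?_)
      exact Nat.pow_le_pow_right (by norm_num) (Nat.le_succ j)
    rcases h with h | h
    · exact ⟨H', hpow, Or.inl h⟩
    · have hone : (1:ℝ) ≤ (1 + 1 / 1024 : ℝ) ^ j := one_le_pow₀ (by norm_num)
      have hs' : Real.exp (-16) * B.card ≤ cs B H' x₀ := by
        refine le_trans ?_ h
        exact le_mul_of_one_le_left (by positivity) hone
      rcases merge_step hG hB hext H' x₀ hs' with h1 | ⟨H'', h2, h3⟩
      · exact ⟨H', hpow, Or.inl h1⟩
      · refine ⟨H'', ?_, Or.inr ?_⟩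
        · calc Nat.card H'' ≤ 2 * Nat.card H' := h2
            _ ≤ 2 * (2 ^ j * Nat.card H) := Nat.mul_le_mul_left _ hcard
            _ = _ := by ring
        · refine le_trans ?_ h3
          calc (1 + 1 / 1024 : ℝ) ^ (j + 1) * (Real.exp (-16) * B.card)
              = (1 + 1 / 1024 : ℝ) * ((1 + 1 / 1024 : ℝ) ^ j * (Real.exp (-16) * B.card)) := by ring
            _ ≤ _ := by gcongr

lemma pow_growth (m : ℕ) : (2:ℝ) ^ m ≤ (1 + 1 / 1024 : ℝ) ^ (1024 * m) := by
  have h5 : (2:ℝ) ≤ (1 + 1 / 1024 : ℝ) ^ 1024 := by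
    have h := one_add_mul_le_pow (a := (1 / 1024 : ℝ)) (by norm_num) 1024
    refine le_trans (le_of_eq ?_) h
    norm_num
  rw [pow_mul]
  exact pow_le_pow_left₀ (by norm_num) h5 m

/-- A heavy coset can be enlarged to a coset containing `B`. -/
lemma exists_coset [Finite G] {B : Finset G} (hG : ∀ x : G, x + x = 0) (hB : B.Nonempty)
    (hext : Extremal B) (H : AddSubgroup G) (x₀ : G)
    (hs : Real.exp (-16) * B.card ≤ cs B H x₀) (m : ℕ) (hm : Real.exp 16 < 2 ^ m) :
    ∃ H' : AddSubgroup G, Nat.card H' ≤ 2 ^ (1024 * m) * Nat.card H ∧ cs B H' x₀ = B.card := by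
  have hn : (0:ℝ) < B.card := by exact_mod_cast hB.card_pos
  obtain ⟨H', h1, h2⟩ := iterate hG hB hext H x₀ hs (1024 * m)
  refine ⟨H', h1, ?_⟩
  rcases h2 with h2 | h2
  · exact h2
  · exfalso
    have h3 : (cs B H' x₀ : ℝ) ≤ B.card := by exact_mod_cast cs_le _ _ _
    have h4 := h2.trans h3
    have h6 := pow_growth m
    obtain ⟨P, hP⟩ : ∃ P : ℝ, P = (1 + 1 / 1024 : ℝ) ^ (1024 * m) := ⟨_, rfl⟩
    rw [← hP] at h6 h4
    have h8 : (1:ℝ) < P * Real.exp (-16) := by
      have h9 : Real.exp 16 < P := hm.trans_le h6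
      calc (1:ℝ) = Real.exp 16 * Real.exp (-16) := by rw [← Real.exp_add]; norm_num
        _ < _ := mul_lt_mul_of_pos_right h9 (Real.exp_pos _)
    have h10 : P * Real.exp (-16) * B.card ≤ B.card := by
      rw [mul_assoc]; exact h4
    have h11 := (mul_lt_mul_of_pos_right h8 hn).trans_le h10
    linarith

open Pointwise in
lemma card_add_le_of_coset [Finite G] {B : Finset G} (H : AddSubgroup G) (x₀ : G)
    (h : cs B H x₀ = B.card) : (B + B).card ≤ Nat.card H := by
  classical
  have h1 : ∀ g ∈ B, g - x₀ ∈ H := by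
    unfold cs at h
    have h2 := Finset.eq_of_subset_of_card_le (Finset.filter_subset (fun g => g - x₀ ∈ H) B) h.ge
    intro g hg
    rw [← h2] at hg
    exact (Finset.mem_filter.mp hg).2
  letI : Fintype G := Fintype.ofFinite G
  have h2 : (B + B).card ≤ (Finset.univ.filter (fun g => g ∈ H)).card := by
    apply Finset.card_le_card_of_injOn (fun g => g - (x₀ + x₀))
    · intro g hg
      rw [Finset.mem_coe, Finset.mem_add] at hg
      obtain ⟨a, ha, b, hb, rfl⟩ := hg
      simp only [Finset.coe_filter, Finset.mem_univ, true_and, Set.mem_setOf_eq]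
      have : a + b - (x₀ + x₀) = (a - x₀) + (b - x₀) := by abel
      rw [this]
      exact H.add_mem (h1 a ha) (h1 b hb)
    · intro a _ b _ hab
      simpa using hab
  refine h2.trans (le_of_eq ?_)
  rw [Nat.card_eq_fintype_card, Fintype.card_subtype]

end Pool.Agent.BSGX2
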