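import Mathlib
import Pool.Agent.PFR.Inc
import Pool.Agent.PFR.Bsg0
import Pool.Agent.PFR.Cond

/-!
# The one step lemma
-/

namespace Pool.Agent.BSGX2

open Finset Pool.Agent.PFR

set_option linter.unusedSectionVars false

lemma sum_law {Ω S : Type*} [Fintype Ω] [Fintype S] (P : Ω → ℝ) (X : Ω → S) (g : S → ℝ) :
    ∑ s, law P X s * g s = ∑ ω, P ω * g (X ω) := by
  classical
  unfold law
  simp_rw [Finset.sum_mul]
  rw [Finset.sum_comm]
  apply Finset.sum_congr rfl; intro ω _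
  rw [Finset.sum_eq_single (X ω)]
  · rw [if_pos rfl]
  · intro s _ hs
    rw [if_neg (fun h => hs h.symm), zero_mul]
  · intro h; exact absurd (Finset.mem_univ _) h

variable {Γ : Type*} [AddCommGroup Γ] [Fintype Γ]

/-- the weight on pairs -/
noncomputable def PP (f : Γ → ℝ) (x₀ : Γ) (T : ℝ) (ω : Γ × Γ) : ℝ :=
  f ω.1 * (f ω.2 * f (x₀ + ω.1 - ω.2)) / T

/-- the marginal -/
noncomputable def qq (f : Γ → ℝ) (x₀ : Γ) (T : ℝ) (a : Γ) : ℝ :=
  f a * (∑ b, f b * f (x₀ + a - b)) / T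

lemma PP_isProb {f : Γ → ℝ} (hf : ∀ x, 0 ≤ f x) (x₀ : Γ) {T : ℝ}
    (hT : T = ∑ a, ∑ b, f a * (f b * f (x₀ + a - b))) (hT0 : 0 < T) : IsProb (PP f x₀ T) := by
  constructor
  · intro ω
    unfold PP
    have h1 := hf ω.1
    have h2 := hf ω.2
    have h3 := hf (x₀ + ω.1 - ω.2)
    positivity
  · unfold PP
    rw [← Finset.sum_div, Fintype.sum_prod_type]
    simp only
    rw [← hT, div_self hT0.ne']

lemma law_fst {f : Γ → ℝ} (x₀ : Γ) (T : ℝ) : law (PP f x₀ T) (fun ω => ω.1) = qq f x₀ T := by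
  classical
  funext a
  unfold law PP qq
  rw [Fintype.sum_prod_type]
  simp only
  rw [Finset.sum_eq_single a]
  · simp only [if_true]
    rw [← Finset.sum_div, Finset.mul_sum]
  · intro b _ hb
    simp [hb]
  · intro h; exact absurd (Finset.mem_univ _) h

lemma neg_self (h2 : ∀ x : Γ, x + x = 0) (x : Γ) : -x = x := neg_eq_of_add_eq_zero_left (h2 x)

lemma sub_eq (h2 : ∀ x : Γ, x + x = 0) (x y : Γ) : x - y = x + y := by
  rw [sub_eq_add_neg, neg_self h2]

lemma law_snd (h2 : ∀ x : Γ, x + x = 0) {f : Γ → ℝ} (x₀ : Γ) (T : ℝ) :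
    law (PP f x₀ T) (fun ω => ω.2) = qq f x₀ T := by
  classical
  funext b
  unfold law PP qq
  rw [Fintype.sum_prod_type, Finset.sum_comm]
  simp only
  rw [Finset.sum_eq_single b]
  · simp only [if_true]
    rw [← Finset.sum_div, Finset.mul_sum]
    congr 1
    apply Finset.sum_congr rfl; intro a _
    have : x₀ + a - b = x₀ + b - a := by
      rw [sub_eq h2, sub_eq h2]; abel
    rw [this]; ring
  · intro a _ ha
    simp [ha]
  · intro h; exact absurd (Finset.mem_univ _) h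

lemma law_add (h2 : ∀ x : Γ, x + x = 0) {f : Γ → ℝ} (x₀ : Γ) (T : ℝ) :
    law (PP f x₀ T) (fun ω => ω.1 + ω.2) = fun z => qq f x₀ T (x₀ + z) := by
  classical
  funext z
  unfold law PP qq
  rw [Fintype.sum_prod_type]
  simp only
  rw [Finset.mul_sum, Finset.sum_div]
  apply Finset.sum_congr rfl; intro a _
  rw [Finset.sum_eq_single (z - a)]
  · rw [if_pos (by abel)]
    have e1 : x₀ + a - (z - a) = x₀ + z := by
      have : x₀ + a - (z - a) = x₀ - z + (a + a) := by abel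
      rw [this, h2, add_zero, sub_eq h2]
    have e2 : x₀ + (x₀ + z) - a = z - a := by
      have : x₀ + (x₀ + z) - a = (x₀ + x₀) + z - a := by abel
      rw [this, h2, zero_add]
    rw [e1, e2]; ring
  · intro b _ hb
    rw [if_neg]
    intro h
    apply hb
    rw [← h]; abel
  · intro h; exact absurd (Finset.mem_univ _) h

lemma ent_PP {f : Γ → ℝ} (hf : ∀ x, 0 ≤ f x) (h2 : ∀ x : Γ, x + x = 0) (x₀ : Γ) {T : ℝ}
    (hT : T = ∑ a, ∑ b, f a * (f b * f (x₀ + a - b))) (hT0 : 0 < T) :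
    ent (PP f x₀ T) = Real.log T - 3 * ∑ a, qq f x₀ T a * Real.log (f a) := by
  have hP := PP_isProb hf x₀ hT hT0
  have h1 : ∀ ω : Γ × Γ, Real.negMulLog (PP f x₀ T ω) =
      PP f x₀ T ω * Real.log T - PP f x₀ T ω * Real.log (f ω.1) -
      PP f x₀ T ω * Real.log (f ω.2) - PP f x₀ T ω * Real.log (f (x₀ + (ω.1 + ω.2))) := by
    intro ω
    have e0 : x₀ + ω.1 - ω.2 = x₀ + (ω.1 + ω.2) := by rw [sub_eq h2]; abel
    by_cases h : PP f x₀ T ω = 0
    · rw [h]; simp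
    · have h' : f ω.1 * (f ω.2 * f (x₀ + ω.1 - ω.2)) ≠ 0 := by
        intro h0
        apply h
        unfold PP
        rw [h0, zero_div]
      have n1 : f ω.1 ≠ 0 := left_ne_zero_of_mul h'
      have n23 := right_ne_zero_of_mul h'
      have n2 : f ω.2 ≠ 0 := left_ne_zero_of_mul n23
      have n3 : f (x₀ + ω.1 - ω.2) ≠ 0 := right_ne_zero_of_mul n23
      have e : Real.log (PP f x₀ T ω) = Real.log (f ω.1) + (Real.log (f ω.2) +
          Real.log (f (x₀ + ω.1 - ω.2))) - Real.log T := by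
        unfold PP
        rw [Real.log_div h' hT0.ne', Real.log_mul n1 n23, Real.log_mul n2 n3]
      unfold Real.negMulLog
      rw [e, e0]; ring
  unfold ent
  simp_rw [h1]
  rw [Finset.sum_sub_distrib, Finset.sum_sub_distrib, Finset.sum_sub_distrib, ← Finset.sum_mul,
    hP.sum_eq, one_mul]
  have s1 := sum_law (PP f x₀ T) (fun ω => ω.1) (fun a => Real.log (f a))
  have s2 := sum_law (PP f x₀ T) (fun ω => ω.2) (fun a => Real.log (f a))
  have s3 := sum_law (PP f x₀ T) (fun ω => ω.1 + ω.2) (fun a => Real.log (f (x₀ + a)))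
  rw [law_fst] at s1
  rw [law_snd h2] at s2
  rw [law_add h2] at s3
  have s3' : ∑ s, qq f x₀ T (x₀ + s) * Real.log (f (x₀ + s)) = ∑ s, qq f x₀ T s * Real.log (f s) :=
    Equiv.sum_comp (Equiv.addLeft x₀) (fun s => qq f x₀ T s * Real.log (f s))
  simp only at s1 s2 s3
  rw [s3'] at s3
  rw [← s1, ← s2, ← s3]
  ring

lemma step {f : Γ → ℝ} (hf : ∀ x, 0 ≤ f x) (h2 : ∀ x : Γ, x + x = 0) (x₀ : Γ) {T : ℝ}
    (hT : T = ∑ a, ∑ b, f a * (f b * f (x₀ + a - b))) (hT0 : 0 < T) {w : Γ → ℝ}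
    (hw : ∀ x, 0 ≤ w x) (hs : ∀ x, f x ≠ 0 → w x ≠ 0) :
    ∃ (V : AddSubgroup Γ) (x : Γ), 0 < csum V w x ∧
      Real.log (Nat.card V) - 2 * Real.log (csum V w x) ≤
        - 2 * (∑ a, qq f x₀ T a * Real.log (w a)) + 67 * ent (qq f x₀ T) -
        34 * (Real.log T - 3 * ∑ a, qq f x₀ T a * Real.log (f a)) := by
  classical
  obtain ⟨P, hPdef⟩ : ∃ P, P = PP f x₀ T := ⟨_, rfl⟩
  obtain ⟨q, hqdef⟩ : ∃ q, q = qq f x₀ T := ⟨_, rfl⟩
  have hP : IsProb P := by rw [hPdef]; exact PP_isProb hf x₀ hT hT0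
  have hA : law P (fun ω => ω.1) = q := by rw [hPdef, hqdef]; exact law_fst x₀ T
  have hBl : law P (fun ω => ω.2) = q := by rw [hPdef, hqdef]; exact law_snd h2 x₀ T
  have hZl : law P (fun ω => ω.1 + ω.2) = fun z => q (x₀ + z) := by
    rw [hPdef, hqdef]; exact law_add h2 x₀ T
  have hent : ent P = Real.log T - 3 * ∑ a, q a * Real.log (f a) := by
    rw [hPdef, hqdef]; exact ent_PP hf h2 x₀ hT hT0
  have hHA : H P (fun ω => ω.1) = ent q := by unfold H; rw [hA]
  have hHB : H P (fun ω => ω.2) = ent q := by unfold H; rw [hBl]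
  have hHZ : H P (fun ω => ω.1 + ω.2) = ent q := by
    unfold H; rw [hZl]
    unfold ent
    exact Equiv.sum_comp (Equiv.addLeft x₀) (fun s => Real.negMulLog (q s))
  have hHAB : H P (fun ω : Γ × Γ => (ω.1, ω.2)) = ent P := H_id P
  have hHAZ : H P (fun ω : Γ × Γ => (ω.1, ω.1 + ω.2)) = ent P := by
    rw [← hHAB]
    apply H_eq_of_ker
    intro ω ω' _ _
    simp only [Prod.mk.injEq]
    constructor
    · rintro ⟨h3, h4⟩
      rw [h3] at h4
      exact ⟨h3, add_left_cancel h4⟩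
    · rintro ⟨h3, h4⟩
      rw [h3, h4]; exact ⟨rfl, rfl⟩
  have hb := dcond_bsg0 h2 hP (fun ω : Γ × Γ => ω.1) (fun ω => ω.2)
  rw [dcond_self h2, hHA, hHB, hHZ, hHAB] at hb
  have hc := chain_rule hP (fun ω : Γ × Γ => ω.1) (fun ω => ω.1 + ω.2)
  rw [hHAZ, hHZ] at hc
  -- average of `log w`
  have hm : ∑ z, law P (fun ω => ω.1 + ω.2) z *
      ∑ a, law (cnd P (fun ω => ω.1 + ω.2) z) (fun ω => ω.1) a * Real.log (w a) =
      ∑ a, q a * Real.log (w a) := by
    rw [← hA, sum_law P (fun ω => ω.1) (fun a => Real.log (w a))]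
    have h3 := sum_law P (fun ω : Γ × Γ => (ω.1, ω.1 + ω.2)) (fun s => Real.log (w s.1))
    simp only at h3
    rw [← h3, Fintype.sum_prod_type, Finset.sum_comm]
    apply Finset.sum_congr rfl; intro z _
    rw [Finset.mul_sum]
    apply Finset.sum_congr rfl; intro a _
    rw [← law_mul_law_cnd hP]
    ring
  -- choose `z`
  obtain ⟨R, hR⟩ : ∃ R : Γ → ℝ, R = fun z =>
      - 2 * (∑ a, law (cnd P (fun ω => ω.1 + ω.2) z) (fun ω => ω.1) a * Real.log (w a)) -
      H (cnd P (fun ω => ω.1 + ω.2) z) (fun ω => ω.1) +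
      11 * PFR.dist (law (cnd P (fun ω => ω.1 + ω.2) z) (fun ω => ω.1))
        (law (cnd P (fun ω => ω.1 + ω.2) z) (fun ω => ω.1)) := ⟨_, rfl⟩
  obtain ⟨bd, hbd⟩ : ∃ bd : ℝ, bd = - 2 * (∑ a, q a * Real.log (w a)) + 67 * ent q -
        34 * (Real.log T - 3 * ∑ a, q a * Real.log (f a)) := ⟨_, rfl⟩
  have hav : ∑ z, law P (fun ω => ω.1 + ω.2) z * R z ≤ bd := by
    have e : ∑ z, law P (fun ω => ω.1 + ω.2) z * R z =
        - 2 * (∑ z, law P (fun ω => ω.1 + ω.2) z *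
      ∑ a, law (cnd P (fun ω => ω.1 + ω.2) z) (fun ω => ω.1) a * Real.log (w a)) -
      (∑ z, law P (fun ω => ω.1 + ω.2) z * H (cnd P (fun ω => ω.1 + ω.2) z) (fun ω => ω.1)) +
      11 * (∑ z, law P (fun ω => ω.1 + ω.2) z *
        PFR.dist (law (cnd P (fun ω => ω.1 + ω.2) z) (fun ω => ω.1))
        (law (cnd P (fun ω => ω.1 + ω.2) z) (fun ω => ω.1))) := by
      rw [hR, Finset.mul_sum, Finset.mul_sum, ← Finset.sum_sub_distrib, ← Finset.sum_add_distrib]
      apply Finset.sum_congr rfl; intro z _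
      ring
    rw [e, hm, hc, hbd]
    rw [hent] at hb ⊢
    linarith
  have hex : ∃ z, law P (fun ω => ω.1 + ω.2) z ≠ 0 ∧ R z ≤ bd := by
    by_contra hcon
    push Not at hcon
    have hZ := isProb_law hP (fun ω : Γ × Γ => ω.1 + ω.2)
    have h3 : ∑ z, law P (fun ω => ω.1 + ω.2) z * (R z - bd) ≤ 0 := by
      have e : ∑ z, law P (fun ω => ω.1 + ω.2) z * (R z - bd) =
          ∑ z, law P (fun ω => ω.1 + ω.2) z * R z - (∑ z, law P (fun ω => ω.1 + ω.2) z) * bd := by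
        rw [Finset.sum_mul, ← Finset.sum_sub_distrib]
        apply Finset.sum_congr rfl; intro z _; ring
      rw [e, hZ.sum_eq]; linarith
    have h4 : ∀ z, 0 ≤ law P (fun ω => ω.1 + ω.2) z * (R z - bd) := by
      intro z
      by_cases h : law P (fun ω => ω.1 + ω.2) z = 0
      · rw [h, zero_mul]
      · exact mul_nonneg (hZ.nonneg z) (by linarith [hcon z h])
    have h5 : ∃ z, law P (fun ω => ω.1 + ω.2) z ≠ 0 := by
      by_contra h6
      push Not at h6
      have h7 := hZ.sum_eq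
      rw [Finset.sum_eq_zero (fun z _ => h6 z)] at h7
      norm_num at h7
    obtain ⟨z, hz⟩ := h5
    have h6 : 0 < law P (fun ω => ω.1 + ω.2) z * (R z - bd) :=
      mul_pos (lt_of_le_of_ne (hZ.nonneg z) (Ne.symm hz)) (by linarith [hcon z hz])
    have h7 := Finset.single_le_sum (fun i _ => h4 i) (Finset.mem_univ z)
    linarith
  obtain ⟨z, hz, hRz⟩ := hex
  have hPz := isProb_cnd hP (fun ω : Γ × Γ => ω.1 + ω.2) hz
  have hqz := isProb_law hPz (fun ω : Γ × Γ => ω.1)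
  have hsupp : ∀ x, law (cnd P (fun ω => ω.1 + ω.2) z) (fun ω : Γ × Γ => ω.1) x ≠ 0 → w x ≠ 0 := by
    intro x hx
    apply hs
    intro hfx
    apply hx
    have h3 := law_mul_law_cnd hP (fun ω : Γ × Γ => ω.1) (fun ω => ω.1 + ω.2) z x
    have h4 : law P (fun ω : Γ × Γ => (ω.1, ω.1 + ω.2)) (x, z) = 0 := by
      unfold law
      apply Finset.sum_eq_zero; intro ω _
      split_ifs with h5
      · have h6 : ω.1 = x := congrArg Prod.fst h5
        rw [hPdef]
        unfold PP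
        rw [h6, hfx]; simp
      · rfl
    rw [h4] at h3
    rcases mul_eq_zero.mp h3 with h5 | h5
    · exact absurd h5 hz
    · exact h5
  obtain ⟨V, x, _, hpos, hinc⟩ := inc h2 hqz hw hsupp
  refine ⟨V, x, hpos, ?_⟩
  rw [← hqdef, ← hbd]
  refine hinc.trans ?_
  rw [hR] at hRz
  exact hRz

end Pool.Agent.BSGX2
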