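import Mathlib
import Pool.Agent.BSGX2.Iterate
import Pool.Agent.BSGX2.Step

/-!
# The first coset, and the maximiser of `|B ∩ (x + H)|² / |H|`
-/

namespace Pool.Agent.BSGX2

open Finset Pool.Agent.BSGEnergy Pool.Agent.PFR

set_option linter.unusedSectionVars false
set_option linter.style.haveILetI false

variable {G : Type*} [AddCommGroup G] [DecidableEq G]

lemma log_747 : -(3 / 10 : ℝ) ≤ Real.log (747 / 1000) := by
  rw [Real.le_log_iff_exp_le (by norm_num)]
  have h := Real.exp_bound_div_one_sub_of_interval (x := 3 / 10) (by norm_num) (by norm_num)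
  have h1 : Real.exp (-(3 / 10 : ℝ)) ^ 10 ≤ (747 / 1000 : ℝ) ^ 10 := by
    rw [← Real.exp_nat_mul]
    have e : ((10:ℕ):ℝ) * -(3 / 10) = -(((3:ℕ):ℝ) * 1) := by norm_num
    rw [e, Real.exp_neg, Real.exp_nat_mul]
    have h2 : (2.7182818283 : ℝ) ^ 3 ≤ Real.exp 1 ^ 3 :=
      pow_le_pow_left₀ (by norm_num) Real.exp_one_gt_d9.le 3
    calc (Real.exp 1 ^ 3)⁻¹ ≤ ((2.7182818283 : ℝ) ^ 3)⁻¹ := inv_anti₀ (by norm_num) h2
      _ ≤ _ := by norm_num
  exact le_of_pow_le_pow_left₀ (by norm_num) (by norm_num) h1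

lemma const_747 {n : ℝ} (hn : 10 ^ 5 ≤ n) : 747 / 1000 ≤ 299 / 400 * (1 - 1 / n) := by
  have h : 1 / n ≤ 1 / 10 ^ 5 := by
    apply one_div_le_one_div_of_le (by norm_num) hn
  norm_num at h ⊢
  linarith

lemma init_real {n E T a b : ℝ} {e : ℝ} (hn : 0 < n) (hE : 0 < E)
    (hT : 747 / 1000 * (E / n) ≤ T)
    (h : a - 2 * (b - Real.log n) ≤ -2 * (- Real.log n) + 67 * e - 34 * (Real.log T - 3 * 0))
    (he : e ≤ Real.log n) :
    a - 2 * b ≤ - Real.log n + 34 * (Real.log (n ^ 3 / E) + 3 / 10) := by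
  have h3 : Real.log (747 / 1000 * (E / n)) ≤ Real.log T := Real.log_le_log (by positivity) hT
  have h5 : Real.log (747 / 1000 * (E / n)) = Real.log (747 / 1000) + (Real.log E - Real.log n) := by
    rw [Real.log_mul (by norm_num) (div_pos hE hn).ne', Real.log_div hE.ne' hn.ne']
  have h6 : Real.log (n ^ 3 / E) = 3 * Real.log n - Real.log E := by
    rw [Real.log_div (pow_pos hn 3).ne' hE.ne', Real.log_pow]; norm_num
  rw [h5] at h3
  rw [h6]
  have h4 := log_747
  linarith

/-- the first coset -/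
lemma init [Fintype G] {B : Finset G} (hG : ∀ x : G, x + x = 0) (hB : B.Nonempty)
    (hext : Extremal B) (hN : (10:ℝ) ^ 5 ≤ B.card) :
    ∃ (V : AddSubgroup G) (x : G), 0 < cs B V x ∧
      Real.log (Nat.card V) - 2 * Real.log (cs B V x) ≤
        - Real.log B.card + 34 * (Real.log ((B.card : ℝ) ^ 3 / energy B) + 3 / 10) := by
  classical
  have hn : (0:ℝ) < B.card := by exact_mod_cast hB.card_pos
  have hEB : (0:ℝ) < energy B := by exact_mod_cast energy_pos hB
  obtain ⟨b₀, hb₀⟩ := hB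
  have hB : B.Nonempty := ⟨b₀, hb₀⟩
  obtain ⟨f, hf⟩ : ∃ f : G → ℝ, f = fun a => if a ∈ B then 1 else 0 := ⟨_, rfl⟩
  have hf0 : ∀ x, 0 ≤ f x := by intro x; rw [hf]; simp only; split_ifs <;> norm_num
  have hdeg := deg_lower hext hb₀
  obtain ⟨T, hT⟩ : ∃ T, T = ∑ a, ∑ b, f a * (f b * f (b₀ + a - b)) := ⟨_, rfl⟩
  have hTdeg : T = deg B b₀ := by
    rw [hT]
    unfold deg
    push_cast
    rw [hf]
    simp only
    have e1 : ∀ (F : G → ℝ), ∑ a, (if a ∈ B then (1:ℝ) else 0) * F a = ∑ a ∈ B, F a := by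
      intro F
      simp
    have e2 : ∀ a, ∑ b, (if a ∈ B then (1:ℝ) else 0) * ((if b ∈ B then 1 else 0) *
        (if b₀ + a - b ∈ B then 1 else 0)) = (if a ∈ B then (1:ℝ) else 0) *
        ∑ b ∈ B, (if b₀ + a - b ∈ B then (1:ℝ) else 0) := by
      intro a
      rw [← Finset.mul_sum, e1]
    simp_rw [e2]
    rw [e1]
    apply Finset.sum_congr rfl; intro a _
    apply Finset.sum_congr rfl; intro b _
    have e3 : ∀ c, (b₀ + a = b + c) ↔ (c = b₀ + a - b) := by
      intro c
      constructor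
      · intro h; rw [h]; abel
      · intro h; rw [h]; abel
    simp_rw [e3]
    rw [Finset.sum_ite_eq']
  have hTlow : 747 / 1000 * ((energy B : ℝ) / B.card) ≤ T := by
    rw [hTdeg]
    refine le_trans ?_ hdeg
    exact mul_le_mul_of_nonneg_right (const_747 hN) (by positivity)
  have hT0 : 0 < T := lt_of_lt_of_le (by positivity) hTlow
  obtain ⟨w, hw⟩ : ∃ w : G → ℝ, w = fun a => f a / B.card := ⟨_, rfl⟩
  obtain ⟨V, x, hpos, hst⟩ := step hf0 hG b₀ hT hT0 (w := w)
    (by intro x; rw [hw]; exact div_nonneg (hf0 x) hn.le)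
    (by intro x hx; rw [hw]; exact div_ne_zero hx hn.ne')
  have hP := PP_isProb hf0 b₀ hT hT0
  have hq : IsProb (qq f b₀ T) := by
    rw [← law_fst]; exact isProb_law hP _
  have hqB : ∀ a, qq f b₀ T a ≠ 0 → a ∈ B := by
    intro a ha
    by_contra h
    apply ha
    unfold qq
    rw [hf]; simp [h]
  have hh : ent (qq f b₀ T) ≤ Real.log B.card := ent_le_log_card hq B hqB
  have hlf : ∑ a, qq f b₀ T a * Real.log (f a) = 0 := by
    apply Finset.sum_eq_zero; intro a _
    by_cases h : a ∈ B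
    · rw [hf]; simp [h]
    · rw [hf]; simp [h]
  have hlw : ∑ a, qq f b₀ T a * Real.log (w a) = - Real.log B.card := by
    calc ∑ a, qq f b₀ T a * Real.log (w a) = ∑ a, qq f b₀ T a * (- Real.log B.card) := by
          apply Finset.sum_congr rfl; intro a _
          by_cases h : qq f b₀ T a = 0
          · rw [h]; simp
          · have h3 := hqB a h
            rw [hw, hf]
            simp only [h3, if_true]
            rw [one_div, Real.log_inv]
      _ = _ := by rw [← Finset.sum_mul, hq.sum_eq, one_mul]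
  have hcs : csum V w x = (cs B V x : ℝ) / B.card := by
    unfold csum cs
    rw [hw, hf]
    simp only
    rw [Finset.card_filter, Nat.cast_sum, Finset.sum_div, ← Finset.sum_subset (Finset.subset_univ B)]
    · apply Finset.sum_congr rfl; intro y hy
      by_cases h : y - x ∈ V
      · simp [h, hy]
      · simp [h]
    · intro y _ hy
      simp [hy]
  have hcs0 : (0:ℝ) < cs B V x := by
    rw [hcs] at hpos
    by_contra h
    push Not at h
    have : (cs B V x : ℝ) / B.card ≤ 0 := div_nonpos_of_nonpos_of_nonneg h hn.le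
    linarith
  refine ⟨V, x, by exact_mod_cast hcs0, ?_⟩
  rw [hlf, hlw, hcs, Real.log_div hcs0.ne' hn.ne'] at hst
  exact init_real hn hEB hTlow hst hh

lemma card_comap_mk [Finite G] (H : AddSubgroup G) (V : AddSubgroup (G ⧸ H)) :
    Nat.card (V.comap (QuotientAddGroup.mk' H)) = Nat.card V * Nat.card H := by
  have h1 := AddSubgroup.index_comap_of_surjective V (QuotientAddGroup.mk'_surjective H)
  have h2 := (V.comap (QuotientAddGroup.mk' H)).card_mul_index
  have h3 := V.card_mul_index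
  have h4 : Nat.card G = Nat.card (G ⧸ H) * Nat.card H := AddSubgroup.card_eq_card_quotient_mul_card_addSubgroup H
  rw [h1, h4, ← h3] at h2
  have h5 : V.index ≠ 0 := AddSubgroup.FiniteIndex.index_ne_zero
  apply Nat.eq_of_mul_eq_mul_right (Nat.pos_of_ne_zero h5)
  rw [h2]; ring

open Classical in
lemma csum_wt [Fintype G] (B : Finset G) (H : AddSubgroup G) [Fintype (G ⧸ H)]
    (V : AddSubgroup (G ⧸ H)) (g : G) :
    csum V (wt (QuotientAddGroup.mk' H) B B) (QuotientAddGroup.mk' H g) =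
      (cs B (V.comap (QuotientAddGroup.mk' H)) g : ℝ) / B.card := by
  unfold csum cs
  have h1 : ∀ y : G ⧸ H, (if y - QuotientAddGroup.mk' H g ∈ V then
      wt (QuotientAddGroup.mk' H) B B y else 0) =
      (∑ b ∈ B, if QuotientAddGroup.mk' H b = y then
        (if QuotientAddGroup.mk' H b - QuotientAddGroup.mk' H g ∈ V then (1:ℝ) else 0) else 0) / B.card := by
    intro y
    unfold wt fib
    by_cases h : y - QuotientAddGroup.mk' H g ∈ V
    · rw [if_pos h]
      congr 1
      rw [Finset.card_filter, Nat.cast_sum]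
      apply Finset.sum_congr rfl; intro b _
      by_cases h' : QuotientAddGroup.mk' H b = y
      · rw [if_pos h', if_pos h', h', if_pos h]; simp
      · rw [if_neg h', if_neg h']; simp
    · rw [if_neg h]
      symm
      rw [Finset.sum_eq_zero]
      · simp
      · intro b _
        by_cases h' : QuotientAddGroup.mk' H b = y
        · rw [if_pos h', h', if_neg h]
        · rw [if_neg h']
  simp_rw [h1]
  rw [← Finset.sum_div, Finset.sum_comm]
  congr 1
  rw [Finset.card_filter, Nat.cast_sum]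
  apply Finset.sum_congr rfl; intro b _
  rw [Finset.sum_ite_eq, if_pos (Finset.mem_univ _)]
  have h2 : (b - g ∈ V.comap (QuotientAddGroup.mk' H)) ↔
      (QuotientAddGroup.mk' H b - QuotientAddGroup.mk' H g ∈ V) := by
    rw [AddSubgroup.mem_comap, map_sub]
  by_cases h : QuotientAddGroup.mk' H b - QuotientAddGroup.mk' H g ∈ V
  · rw [if_pos h, if_pos (h2.mpr h)]; simp
  · rw [if_neg h, if_neg (fun h3 => h (h2.mp h3))]; simp

/-- the maximising coset is heavy -/
lemma phase1 [Fintype G] {B : Finset G} (hG : ∀ x : G, x + x = 0) (hB : B.Nonempty)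
    (hext : Extremal B) (hN : (10:ℝ) ^ 5 ≤ B.card) (H : AddSubgroup G) (x₀ : G)
    (hx₀ : 0 < cs B H x₀)
    (hmax : ∀ (H' : AddSubgroup G) (x : G), 0 < cs B H' x →
      Real.log (Nat.card H) - 2 * Real.log (cs B H x₀) ≤
        Real.log (Nat.card H') - 2 * Real.log (cs B H' x)) :
    Real.exp (-16) * B.card ≤ cs B H x₀ := by
  classical
  have hn : (0:ℝ) < B.card := by exact_mod_cast hB.card_pos
  have hc0 : (0:ℝ) < cs B H x₀ := by exact_mod_cast hx₀
  letI : Fintype (G ⧸ H) := Fintype.ofFinite _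
  have hΓ : ∀ x : G ⧸ H, x + x = 0 := by
    intro x
    obtain ⟨g, rfl⟩ := QuotientAddGroup.mk_surjective x
    rw [← QuotientAddGroup.mk_add, hG g, QuotientAddGroup.mk_zero]
  obtain ⟨w, hw⟩ : ∃ w : G ⧸ H → ℝ, w = wt (QuotientAddGroup.mk' H) B B := ⟨_, rfl⟩
  obtain ⟨s, hs⟩ : ∃ s, s = (cs B H x₀ : ℝ) / B.card := ⟨_, rfl⟩
  have hs0 : 0 < s := by rw [hs]; positivity
  have hws : w (QuotientAddGroup.mk' H x₀) = s := by rw [hw, hs, wt_mk]
  have hw0 : ∀ x, 0 ≤ w x := by intro x; rw [hw]; exact wt_nonneg _ _ _ _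
  have hwle : ∀ x, w x ≤ s := by
    intro y
    obtain ⟨x, rfl⟩ := QuotientAddGroup.mk'_surjective H y
    rw [hw, hs, wt_mk]
    apply div_le_div_of_nonneg_right _ hn.le
    by_cases h : 0 < cs B H x
    · have h1 := hmax H x h
      have h2 : (0:ℝ) < cs B H x := by exact_mod_cast h
      have h3 : Real.log (cs B H x) ≤ Real.log (cs B H x₀) := by linarith
      exact (Real.log_le_log_iff h2 hc0).mp h3
    · have : cs B H x = 0 := by omega
      rw [this, Nat.cast_zero]; exact hc0.le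
  obtain ⟨f, hf⟩ : ∃ f : G ⧸ H → ℝ, f = fun x => w x ^ (299 / 400 : ℝ) := ⟨_, rfl⟩
  have hf0 : ∀ x, 0 ≤ f x := by intro x; rw [hf]; exact Real.rpow_nonneg (hw0 x) _
  obtain ⟨T, hT⟩ : ∃ T, T = ∑ a, ∑ b, f a * (f b * f (QuotientAddGroup.mk' H x₀ + a - b)) :=
    ⟨_, rfl⟩
  have hF := F_lower hB hext (QuotientAddGroup.mk' H) (x₀ := QuotientAddGroup.mk' H x₀)
    (by rw [← hw, hws]; exact hs0)
  rw [← hw, hws] at hF
  have hTF : T = ∑ x, ∑ y, w x ^ (299 / 400 : ℝ) * (w y ^ (299 / 400 : ℝ) *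
      w (QuotientAddGroup.mk' H x₀ + x - y) ^ (299 / 400 : ℝ)) := by rw [hT, hf]
  rw [← hTF] at hF
  have hs4 : 0 < s ^ (101 / 400 : ℝ) := Real.rpow_pos_of_pos hs0 _
  have hTlow : 747 / 1000 * s ^ (101 / 400 : ℝ) ≤ T := by
    refine le_trans ?_ hF
    exact mul_le_mul_of_nonneg_right (const_747 hN) hs4.le
  have hT0 : 0 < T := lt_of_lt_of_le (by positivity) hTlow
  have hfw : ∀ x, f x ≠ 0 → w x ≠ 0 := by
    intro x hx h
    apply hx
    rw [hf]; simp only
    rw [h, Real.zero_rpow (by norm_num)]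
  obtain ⟨V, y, hpos, hst⟩ := step hf0 hΓ (QuotientAddGroup.mk' H x₀) hT hT0 hw0 hfw
  obtain ⟨g, rfl⟩ := QuotientAddGroup.mk'_surjective H y
  have hP := PP_isProb hf0 (QuotientAddGroup.mk' H x₀) hT hT0
  obtain ⟨q, hqd⟩ : ∃ q, q = qq f (QuotientAddGroup.mk' H x₀) T := ⟨_, rfl⟩
  have hq : IsProb q := by
    rw [hqd, ← law_fst]; exact isProb_law hP _
  have hqw : ∀ a, q a ≠ 0 → w a ≠ 0 := by
    intro a ha
    apply hfw
    intro h
    apply ha
    rw [hqd]
    unfold qq
    rw [h]; simp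
  rw [← hqd] at hst
  obtain ⟨m, hm⟩ : ∃ m, m = - ∑ a, q a * Real.log (w a) := ⟨_, rfl⟩
  have hsumw : ∑ x, w x ≤ 1 := by
    rw [hw, sum_wt, div_self hn.ne']
  have hh : ent q ≤ m := by rw [hm]; exact gibbs hq w hw0 hsumw hqw
  have hlam : - Real.log s ≤ m := by
    have h1 : ∑ a, q a * Real.log (w a) ≤ ∑ a, q a * Real.log s := by
      apply Finset.sum_le_sum; intro a _
      by_cases h : q a = 0
      · rw [h]; simp
      · have h2 : 0 < w a := lt_of_le_of_ne (hw0 a) (Ne.symm (hqw a h))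
        exact mul_le_mul_of_nonneg_left (Real.log_le_log h2 (hwle a)) (hq.nonneg a)
    rw [← Finset.sum_mul, hq.sum_eq, one_mul] at h1
    rw [hm]; linarith
  have hlf : ∑ a, q a * Real.log (f a) = - (299 / 400) * m := by
    rw [hm]
    have : ∑ a, q a * Real.log (f a) = ∑ a, 299 / 400 * (q a * Real.log (w a)) := by
      apply Finset.sum_congr rfl; intro a _
      by_cases h : q a = 0
      · rw [h]; simp
      · have h2 : 0 < w a := lt_of_le_of_ne (hw0 a) (Ne.symm (hqw a h))
        rw [hf]; simp only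
        rw [Real.log_rpow h2]; ring
    rw [this, ← Finset.mul_sum]; ring
  have hlT : -(3 / 10) + 101 / 400 * Real.log s ≤ Real.log T := by
    have h3 := Real.log_le_log (by positivity) hTlow
    rw [Real.log_mul (by norm_num) hs4.ne', Real.log_rpow hs0] at h3
    have h4 := log_747
    linarith
  -- the new subgroup
  have hcsum : csum V w (QuotientAddGroup.mk' H g) =
      (cs B (V.comap (QuotientAddGroup.mk' H)) g : ℝ) / B.card := by
    rw [hw]; exact csum_wt B H V g
  have hcs0 : (0:ℝ) < cs B (V.comap (QuotientAddGroup.mk' H)) g := by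
    rw [hcsum] at hpos
    by_contra h
    push Not at h
    have : (cs B (V.comap (QuotientAddGroup.mk' H)) g : ℝ) / B.card ≤ 0 :=
      div_nonpos_of_nonpos_of_nonneg h hn.le
    linarith
  have hmx := hmax (V.comap (QuotientAddGroup.mk' H)) g (by exact_mod_cast hcs0)
  have hVpos : (0:ℝ) < Nat.card V := by exact_mod_cast Nat.card_pos
  have hHpos : (0:ℝ) < Nat.card H := by exact_mod_cast Nat.card_pos
  rw [card_comap_mk, Nat.cast_mul, Real.log_mul hVpos.ne' hHpos.ne'] at hmx
  rw [hcsum, Real.log_div hcs0.ne' hn.ne', hlf] at hst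
  have hls : Real.log s = Real.log (cs B H x₀) - Real.log B.card := by
    rw [hs, Real.log_div hc0.ne' hn.ne']
  have e1 : -2 * ∑ a, q a * Real.log (w a) = 2 * m := by rw [hm]; ring
  rw [e1] at hst
  have hfin : - Real.log s ≤ 16 := by
    obtain ⟨σ, hσ⟩ : ∃ σ, σ = Real.log s := ⟨_, rfl⟩
    rw [← hσ] at hls hlT hlam ⊢
    nlinarith
  have h5 : Real.exp (-16) ≤ s := by
    rw [← Real.le_log_iff_exp_le hs0]; linarith
  rw [hs, le_div_iff₀ hn] at h5
  exact h5

end Pool.Agent.BSGX2
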