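import Mathlib
import Pool.Agent.BSGX2.Phase

/-!
# The sumset of an extremal set in a group of exponent two
-/

namespace Pool.Agent.BSGX2

open Finset Pool.Agent.BSGEnergy Pool.Agent.PFR

set_option linter.unusedSectionVars false
set_option linter.style.haveILetI false

variable {G : Type*} [AddCommGroup G] [DecidableEq G]

lemma exp16_lt : Real.exp 16 < 2 ^ 24 := by
  have : (16:ℝ) = ((16:ℕ):ℝ) * 1 := by norm_num
  rw [this, Real.exp_nat_mul]
  calc Real.exp 1 ^ 16 < (2.7182818286 : ℝ) ^ 16 :=
        pow_lt_pow_left₀ Real.exp_one_lt_d9 (Real.exp_pos _).le (by norm_num)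
    _ < _ := by norm_num

lemma exists_min_pair [Finite G] {B : Finset G} {V : AddSubgroup G} {x : G} (h : 0 < cs B V x) :
    ∃ (H : AddSubgroup G) (x₀ : G), 0 < cs B H x₀ ∧
      ∀ (H' : AddSubgroup G) (y : G), 0 < cs B H' y →
      Real.log (Nat.card H) - 2 * Real.log (cs B H x₀) ≤
        Real.log (Nat.card H') - 2 * Real.log (cs B H' y) := by
  classical
  letI : Fintype (AddSubgroup G × G) := Fintype.ofFinite _
  obtain ⟨p, hp, hmin⟩ := Finset.exists_min_image
    ((Finset.univ : Finset (AddSubgroup G × G)).filter (fun p => 0 < cs B p.1 p.2))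
    (fun p => Real.log (Nat.card p.1) - 2 * Real.log (cs B p.1 p.2)) ⟨(V, x), by simp [h]⟩
  refine ⟨p.1, p.2, (Finset.mem_filter.mp hp).2, ?_⟩
  intro H' y hy
  exact hmin (H', y) (by simp [hy])

open Pointwise in
lemma core_finite [Finite G] {B : Finset G} (hG : ∀ x : G, x + x = 0) (hB : B.Nonempty)
    (hext : Extremal B) (hN : (10:ℝ) ^ 5 ≤ B.card) {k : ℝ}
    (hk : k = (B.card : ℝ) ^ 3 / energy B) (hk300 : 300 ≤ Real.log k) :
    ((B + B).card : ℝ) ≤ k ^ 100 * B.card := by
  classical
  letI : Fintype G := Fintype.ofFinite G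
  have hn : (0:ℝ) < B.card := by exact_mod_cast hB.card_pos
  have hEB : (0:ℝ) < energy B := by exact_mod_cast energy_pos hB
  have hk0 : 0 < k := by rw [hk]; positivity
  obtain ⟨V, x, hV, hinit⟩ := init hG hB hext hN
  obtain ⟨H, x₀, hH0, hmin⟩ := exists_min_pair hV
  have hph := phase1 hG hB hext hN H x₀ hH0 hmin
  have h1 := (hmin V x hV).trans hinit
  rw [← hk] at h1
  have hc0 : (0:ℝ) < cs B H x₀ := by exact_mod_cast hH0
  have h2 : Real.log (cs B H x₀) ≤ Real.log B.card :=
    Real.log_le_log hc0 (by exact_mod_cast cs_le _ _ _)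
  obtain ⟨m, hm⟩ : ∃ m : ℕ, m = 24 := ⟨_, rfl⟩
  obtain ⟨H', hH'1, hH'2⟩ := exists_coset hG hB hext H x₀ hph m (by rw [hm]; exact exp16_lt)
  have h3 := card_add_le_of_coset H' x₀ hH'2
  have h4 : ((B + B).card : ℝ) ≤ 2 ^ (1024 * m) * Nat.card H := by
    exact_mod_cast h3.trans hH'1
  have hHpos : (0:ℝ) < Nat.card H := by exact_mod_cast Nat.card_pos
  have hBB : (0:ℝ) < (B + B).card := by
    exact_mod_cast (hB.add hB).card_pos
  rw [← Real.log_le_log_iff hBB (by positivity)]
  have h5 := Real.log_le_log hBB h4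
  rw [Real.log_mul (by positivity) hHpos.ne', Real.log_pow] at h5
  rw [Real.log_mul (by positivity) hn.ne', Real.log_pow]
  have h6 := Real.log_two_lt_d9
  have h7 : ((1024 * m : ℕ) : ℝ) * Real.log 2 ≤ 24576 * 0.7 := by
    rw [hm]
    push_cast
    nlinarith
  push_cast at h7 h5 ⊢
  norm_num at h7
  linarith

/-! ### Transfer to a finite subgroup -/

section Transfer

variable {G' : Type*} [AddCommGroup G'] [DecidableEq G']

lemma quad_image (ι : G' →+ G) (hι : Function.Injective ι) (X₁ X₂ X₃ X₄ : Finset G') :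
    quad (X₁.image ι) (X₂.image ι) (X₃.image ι) (X₄.image ι) = quad X₁ X₂ X₃ X₄ := by
  unfold quad
  rw [Finset.sum_image (fun a _ b _ h => hι h)]
  apply Finset.sum_congr rfl; intro x₁ _
  rw [Finset.sum_image (fun a _ b _ h => hι h)]
  apply Finset.sum_congr rfl; intro x₂ _
  rw [Finset.sum_image (fun a _ b _ h => hι h)]
  apply Finset.sum_congr rfl; intro x₃ _
  rw [Finset.sum_image (fun a _ b _ h => hι h)]
  apply Finset.sum_congr rfl; intro x₄ _
  have : (ι x₁ + ι x₂ = ι x₃ + ι x₄) ↔ (x₁ + x₂ = x₃ + x₄) := by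
    rw [← map_add, ← map_add]; exact hι.eq_iff
  simp only [this]

lemma energy_image (ι : G' →+ G) (hι : Function.Injective ι) (X : Finset G') :
    energy (X.image ι) = energy X := by
  rw [energy_eq, energy_eq, quad_image ι hι]

lemma extremal_image (ι : G' →+ G) (hι : Function.Injective ι) {X : Finset G'}
    (h : Extremal (X.image ι)) : Extremal X := by
  intro Y hY
  have h1 := h (Y.image ι) (Finset.image_subset_image hY)
  rw [energy_image ι hι, energy_image ι hι, Finset.card_image_of_injective _ hι,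
    Finset.card_image_of_injective _ hι] at h1
  exact h1

open Pointwise in
lemma card_add_image (ι : G' →+ G) (hι : Function.Injective ι) (X : Finset G') :
    (X.image ι + X.image ι).card = (X + X).card := by
  have : X.image ι + X.image ι = (X + X).image ι := (Finset.image_add ι).symm
  rw [this, Finset.card_image_of_injective _ hι]

end Transfer

lemma finite_closure (hG : ∀ x : G, x + x = 0) (B : Finset G) :
    Finite (AddSubgroup.closure (B : Set G)) := by
  have hfg : AddGroup.FG (AddSubgroup.closure (B : Set G)) :=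
    (AddGroup.fg_iff_addSubgroup_fg _).mpr ⟨B, rfl⟩
  apply AddCommGroup.finite_of_fg_isAddTorsion
  intro x
  rw [isOfFinAddOrder_iff_nsmul_eq_zero]
  refine ⟨2, by norm_num, ?_⟩
  apply Subtype.ext
  rw [two_nsmul]
  exact hG x

open Pointwise in
lemma core_exp2 {B : Finset G} (hG : ∀ x : G, x + x = 0) (hB : B.Nonempty)
    (hext : Extremal B) (hN : (10:ℝ) ^ 5 ≤ B.card) {k : ℝ}
    (hk : k = (B.card : ℝ) ^ 3 / energy B) (hk300 : 300 ≤ Real.log k) :
    ((B + B).card : ℝ) ≤ k ^ 100 * B.card := by
  classical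
  obtain ⟨S, hS⟩ : ∃ S : AddSubgroup G, S = AddSubgroup.closure (B : Set G) := ⟨_, rfl⟩
  haveI : Finite S := by rw [hS]; exact finite_closure hG B
  obtain ⟨B', hB'⟩ : ∃ B' : Finset S, B'.image S.subtype = B := by
    refine ⟨B.subtype (fun g => g ∈ S), ?_⟩
    ext g
    rw [Finset.mem_image]
    constructor
    · rintro ⟨a, ha, rfl⟩
      exact Finset.mem_subtype.mp ha
    · intro hg
      have hgS : g ∈ S := by rw [hS]; exact AddSubgroup.subset_closure hg
      exact ⟨⟨g, hgS⟩, Finset.mem_subtype.mpr hg, rfl⟩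
  have hι : Function.Injective S.subtype := S.subtype_injective
  have hcard : B.card = B'.card := by
    rw [← hB', Finset.card_image_of_injective _ hι]
  have hen : energy B = energy B' := by
    rw [← hB', energy_image _ hι]
  have hadd : (B + B).card = (B' + B').card := by
    rw [← hB', card_add_image _ hι]
  have hext' : Extremal B' := by
    rw [← hB'] at hext
    exact extremal_image _ hι hext
  have hne : B'.Nonempty := by
    rw [← Finset.card_pos, ← hcard]; exact hB.card_pos
  have hGS : ∀ x : S, x + x = 0 := by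
    intro x
    apply Subtype.ext
    exact hG x
  rw [hadd, hcard]
  rw [hcard] at hN
  rw [hcard, hen] at hk
  exact core_finite hGS hne hext' hN hk hk300

end Pool.Agent.BSGX2
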